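import Pool.Agent.W856.SV.Defs

set_option autoImplicit false

open MeasureTheory Matrix
open scoped ENNReal

namespace Pool.Agent.W856.SV

/-! ### Part A: characteristic functions and domination by Lebesgue measure -/

/-- Decay of the characteristic function. -/
def S_CF1 : Prop := ∀ (μ : Measure ℝ) (K : ℝ), Nice μ K →
  ∃ c : ℝ, 0 < c ∧ ∀ t : ℝ, ‖charFun μ t‖ ≤ Real.exp (-(c * min (t ^ 2) 1))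

/-- `L^p` norms of the characteristic function, `p ≥ 2`. -/
def S_CF2 : Prop := ∀ (μ : Measure ℝ) (K : ℝ), Nice μ K →
  ∃ C : ℝ, 0 < C ∧ ∀ p : ℝ, 2 ≤ p →
    ∫⁻ t : ℝ, ENNReal.ofReal (‖charFun μ t‖ ^ p) ≤ ENNReal.ofReal (C / Real.sqrt p)

/-- Cubes are bounded by the integral of the characteristic function. -/
def S_F1 : Prop := ∀ (μ : Measure ℝ), IsProbabilityMeasure μ →
  ∀ (ι : Type) [Fintype ι] (a : Fin 3 → ι → ℝ) (z : Fin 3 → ℝ) (r : ℝ), 0 < r →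
    Pr μ ι {x | ∀ k, |a k ⬝ᵥ x + z k| ≤ r} ≤
      ENNReal.ofReal (r ^ 3) *
        ∫⁻ ξ : Fin 3 → ℝ, ∏ i, ENNReal.ofReal ‖charFun μ (∑ k, ξ k * a k i)‖

/-- Hölder and Cauchy–Binet: the integral is bounded when no coordinate is large. -/
def S_F3 : Prop := ∀ (μ : Measure ℝ) (K : ℝ), Nice μ K →
  ∃ C : ℝ, 0 < C ∧ ∀ (ι : Type) [Fintype ι] (a : Fin 3 → ι → ℝ), ON a →
    (∀ i, ∑ k, a k i ^ 2 ≤ 1 / 2) →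
    ∫⁻ ξ : Fin 3 → ℝ, ∏ i, ENNReal.ofReal ‖charFun μ (∑ k, ξ k * a k i)‖ ≤ ENNReal.ofReal C

/-- From cubes to measurable sets (Besicovitch). -/
def S_DOM1 : Prop := ∀ (μ : Measure ℝ) (K : ℝ), Nice μ K → ∃ C : ℝ, 0 < C ∧ DomS μ 3 C

/-- Adding two coordinates. -/
def S_DOM2 : Prop := ∀ (μ : Measure ℝ) (K : ℝ), Nice μ K → ∀ (d : ℕ) (C : ℝ), 0 < C →
  DomS μ (d + 1) C → DomS μ d (8 * C)

/-- Removing a large coordinate. -/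
def S_DOM3 : Prop := ∀ (μ : Measure ℝ) (K : ℝ), Nice μ K → ∀ (d : ℕ) (C₁ C₂ : ℝ),
  0 < C₁ → 0 < C₂ → Dom μ d C₁ → DomS μ (d + 1) C₂ →
    Dom μ (d + 1) (C₂ + 2 * K * C₁)

/-- Small ball bounds for boxes in dimensions one, two, three. -/
def SB1 (μ : Measure ℝ) (C : ℝ) : Prop := ∀ (ι : Type) [Fintype ι] (v : ι → ℝ) (z d : ℝ),
  0 < v ⬝ᵥ v → 0 ≤ d → Pr μ ι {x | |v ⬝ᵥ x + z| ≤ d} ≤ ENNReal.ofReal (C * d / Real.sqrt (v ⬝ᵥ v))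

def SB2 (μ : Measure ℝ) (C : ℝ) : Prop := ∀ (ι : Type) [Fintype ι] (f g : ι → ℝ)
  (z₁ z₂ d₁ d₂ : ℝ), f ⬝ᵥ f = 1 → g ⬝ᵥ g = 1 → f ⬝ᵥ g = 0 → 0 ≤ d₁ → 0 ≤ d₂ →
  Pr μ ι {x | |f ⬝ᵥ x + z₁| ≤ d₁ ∧ |g ⬝ᵥ x + z₂| ≤ d₂} ≤ ENNReal.ofReal (C * (d₁ * d₂))

def SB3 (μ : Measure ℝ) (C : ℝ) : Prop := ∀ (ι : Type) [Fintype ι] (f g k : ι → ℝ)
  (z₁ z₂ z₃ d₁ d₂ d₃ : ℝ), f ⬝ᵥ f = 1 → g ⬝ᵥ g = 1 → k ⬝ᵥ k = 1 → f ⬝ᵥ g = 0 → f ⬝ᵥ k = 0 →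
  g ⬝ᵥ k = 0 → 0 ≤ d₁ → 0 ≤ d₂ → 0 ≤ d₃ →
  Pr μ ι {x | |f ⬝ᵥ x + z₁| ≤ d₁ ∧ |g ⬝ᵥ x + z₂| ≤ d₂ ∧ |k ⬝ᵥ x + z₃| ≤ d₃} ≤
    ENNReal.ofReal (C * (d₁ * d₂ * d₃))

def S_SB : Prop := ∀ (μ : Measure ℝ) (K : ℝ), Nice μ K →
  ∃ C : ℝ, 0 < C ∧ SB1 μ C ∧ SB2 μ C ∧ SB3 μ C

/-- Second moment of a linear form. -/
def S_MOM : Prop := ∀ (μ : Measure ℝ) (K : ℝ), Nice μ K → ∀ (ι : Type) [Fintype ι] (w : ι → ℝ),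
  ∫⁻ a, ENNReal.ofReal ((w ⬝ᵥ a) ^ 2) ∂(Pr μ ι) = ENNReal.ofReal (w ⬝ᵥ w)

/-! ### Part B: one row -/

/-- Layer cake formula. -/
def S_CAL : Prop := ∀ (Ω : Type) [MeasurableSpace Ω] (P : Measure Ω), IsProbabilityMeasure P →
  ∀ (A D : Ω → ℝ) (h : ℝ), Measurable A → Measurable D → (∀ ω, 0 ≤ A ω) → 0 < h →
  ∫⁻ ω, ENNReal.ofReal (1 / max (1 + A ω) (D ω ^ 2 * h ^ 2)) ∂P ≤
    ∫⁻ y in Set.Ioi (1 : ℝ), ENNReal.ofReal (2 / y ^ 3) * P {ω | |D ω| ≤ y / h ∧ A ω ≤ y ^ 2}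

/-- The integrals used with the layer cake formula. -/
def S_INT : Prop := ∀ (a b y₀ : ℝ), 0 ≤ a → 0 ≤ b → 0 < y₀ →
  (∫⁻ y in Set.Ioi (0 : ℝ), ENNReal.ofReal (2 / y ^ 2 * min a (b * y ^ 2)) ≤
    ENNReal.ofReal (4 * Real.sqrt (a * b))) ∧
  (∫⁻ y in Set.Ioi y₀, ENNReal.ofReal (2 / y ^ 2) ≤ ENNReal.ofReal (2 / y₀))

/-- Resampling the coordinates in a set. -/
def S_RES : Prop := ∀ (μ : Measure ℝ), IsProbabilityMeasure μ → ∀ (ι : Type) [Fintype ι]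
  (S : ι → Prop) [DecidablePred S] (F : (ι → ℝ) → ℝ≥0∞), Measurable F →
  ∫⁻ x, F x ∂(Pr μ ι) =
    ∫⁻ x, ∫⁻ y, F (fun k => if S k then y k else x k) ∂(Pr μ ι) ∂(Pr μ ι)

/-- Decay of the density of `ν·a` far from the origin. -/
def S_FAR : Prop := ∀ (μ : Measure ℝ) (K : ℝ), Nice μ K →
  ∃ C : ℝ, 0 < C ∧ ∀ (ι : Type) [Fintype ι] (ν : ι → ℝ), ν ⬝ᵥ ν = 1 →
    ∀ (θ m δ : ℝ), 0 < θ → θ ≤ 1 → (∀ j, ν j ^ 2 ≤ 1 - θ ^ 2) → m ≠ 0 → 0 ≤ δ → 2 * δ ≤ |m| →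
    Pr μ ι {a | |ν ⬝ᵥ a + m| ≤ δ} ≤ ENNReal.ofReal (C * δ / (θ * m ^ 2))

/-- Conditional Chebyshev inequality. -/
def S_CHB : Prop := ∀ (μ : Measure ℝ) (K : ℝ), Nice μ K →
  ∃ C : ℝ, 0 < C ∧ ∀ (ι : Type) [Fintype ι] (ν w : ι → ℝ), ν ⬝ᵥ ν = 1 → w ⬝ᵥ ν = 0 →
    ∀ (m δ : ℝ), 0 ≤ δ →
    ∫⁻ a in {a | |ν ⬝ᵥ a + m| ≤ δ}, ENNReal.ofReal ((w ⬝ᵥ a) ^ 2) ∂(Pr μ ι) ≤
      ENNReal.ofReal (C * δ * (w ⬝ᵥ w))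

/-- Small ball bound for `(ν·R, bet R)`. -/
def S_SBB : Prop := ∀ (μ : Measure ℝ) (K : ℝ), Nice μ K →
  ∃ C : ℝ, 0 < C ∧ ∀ (ι : Type) [Fintype ι] [DecidableEq ι] (ν : ι → ℝ) (u : ι → ι → ℝ)
    (lam : ι → ℝ), RowData ν u lam → 0 < hs lam → ∀ (c : ι → ℝ) (δ s : ℝ), 0 ≤ δ → 0 ≤ s →
    Pr μ ι {a | |ν ⬝ᵥ (a + c)| ≤ δ ∧ bet u lam (a + c) ≤ s ^ 2} ≤
      ENNReal.ofReal (C * δ * (s ^ 2 / hs lam))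

/-- Small ball bound for `bet R` alone. -/
def S_SBN : Prop := ∀ (μ : Measure ℝ) (K : ℝ), Nice μ K →
  ∃ C : ℝ, 0 < C ∧ ∀ (ι : Type) [Fintype ι] [DecidableEq ι] (u : ι → ι → ℝ)
    (lam : ι → ℝ), ON u → (∀ k, 0 ≤ lam k) → 0 < hs lam → ∀ (c : ι → ℝ) (s : ℝ), 0 ≤ s →
    Pr μ ι {a | bet u lam (a + c) ≤ s ^ 2} ≤ ENNReal.ofReal (C * (s ^ 2 / hs lam))

/-- Lower bound for the expected weight. -/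
def S_T : Prop := ∀ (μ : Measure ℝ) (K : ℝ), Nice μ K →
  ∃ C : ℝ, 0 < C ∧ ∀ (ι : Type) [Fintype ι] [DecidableEq ι] (ν : ι → ℝ) (u : ι → ι → ℝ)
    (lam : ι → ℝ), RowData ν u lam → ∀ c : ι → ℝ,
    ENNReal.ofReal (1 / (C * (1 + Real.sqrt (hs lam) + Real.sqrt (bt u lam c) +
      |ν ⬝ᵥ c| * Real.sqrt (hs lam)))) ≤ XX μ ν u lam c

/-- First upper bound for the expectation of `JJ`. -/
def S_O1 : Prop := ∀ (μ : Measure ℝ) (K : ℝ), Nice μ K →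
  ∃ C : ℝ, 0 < C ∧ ∀ (ι : Type) [Fintype ι] [DecidableEq ι] (ν : ι → ℝ) (u : ι → ι → ℝ)
    (lam : ι → ℝ), RowData ν u lam → ∀ (c : ι → ℝ) (h : ℝ), 0 < h →
    ∫⁻ a, ENNReal.ofReal (JJ ν u lam h (a + c)) ∂(Pr μ ι) ≤
      ENNReal.ofReal (C / (h * (1 + Real.sqrt (hs lam) + Real.sqrt (bt u lam c))))

/-- Second upper bound for the expectation of `JJ`. -/
def S_O2 : Prop := ∀ (μ : Measure ℝ) (K : ℝ), Nice μ K →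
  ∃ C : ℝ, 0 < C ∧ ∀ (ι : Type) [Fintype ι] [DecidableEq ι] (ν : ι → ℝ) (u : ι → ι → ℝ)
    (lam : ι → ℝ), RowData ν u lam → ∀ (c : ι → ℝ) (h : ℝ), 0 < h → 1 ≤ |ν ⬝ᵥ c| →
    0 < hs lam → (¬ ∃ j, Bad ν (ν ⬝ᵥ c) (hs lam) j) →
    ∫⁻ a, ENNReal.ofReal (JJ ν u lam h (a + c)) ∂(Pr μ ι) ≤
      ENNReal.ofReal (C / (h * |ν ⬝ᵥ c| * Real.sqrt (hs lam)))

/-- The one-row proposition. -/
def S_ROW : Prop := ∀ (μ : Measure ℝ) (K : ℝ), Nice μ K →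
  ∃ C : ℝ, 0 < C ∧ ∀ (ι : Type) [Fintype ι] [DecidableEq ι] (ν : ι → ℝ) (u : ι → ι → ℝ)
    (lam : ι → ℝ), RowData ν u lam → ∀ (c : ι → ℝ) (h : ℝ), 0 < h →
    ¬ ((∃ j, Bad ν (ν ⬝ᵥ c) (hs lam) j) ∧
        1 ≤ ENNReal.ofReal (C * |ν ⬝ᵥ c| * Real.sqrt (hs lam)) * XX μ ν u lam c) →
    ∫⁻ a, ENNReal.ofReal (JJ ν u lam h (a + c)) ∂(Pr μ ι) ≤
      ENNReal.ofReal (C / h) * XX μ ν u lam c

/-! ### Part C: matrices -/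

/-- Structure of the inverse as a function of row `i`. -/
def S_STR : Prop := ∀ (ι : Type) [Fintype ι] [DecidableEq ι] (B₀ : Matrix ι ι ℝ) (i : ι),
  kap B₀ i ≠ 0 → ∃ (u : ι → ι → ℝ) (lam : ι → ℝ), RowData (nuv B₀ i) u lam ∧
    hsOf (Sm B₀ i) = hs lam ∧ (2 ≤ Fintype.card ι → 0 < ∑ k, lam k) ∧
    ∀ R : ι → ℝ, nuv B₀ i ⬝ᵥ R ≠ 0 →
      (B₀.updateRow i R).det ≠ 0 ∧
      (∀ l, (B₀.updateRow i R)⁻¹ l i = nuv B₀ i l / (nuv B₀ i ⬝ᵥ R)) ∧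
      hsn (B₀.updateRow i R)⁻¹ =
        ∑ k, lam k + (1 + bet u lam R) / (nuv B₀ i ⬝ᵥ R) ^ 2 ∧
      w2 (B₀.updateRow i R)⁻¹ i = (∑ k, lam k) / (nuv B₀ i ⬝ᵥ R) ^ 2 ∧
      e2 (B₀.updateRow i R)⁻¹ = (∑ k, lam k) / (nuv B₀ i ⬝ᵥ R) ^ 2 *
        (2 + (nuv B₀ i ⬝ᵥ R) ^ 2 * hs lam + 2 * bt u lam R)

/-- Structure of row `j` of the inverse as a function of row `i`, localised case. -/
def S_LOC : Prop := ∀ (ι : Type) [Fintype ι] [DecidableEq ι] (B₀ : Matrix ι ι ℝ) (i j : ι),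
  3 / 4 < nuv B₀ i j ^ 2 → ∃ (u : ι → ι → ℝ) (lam : ι → ℝ), ON u ∧ (∀ k, 0 ≤ lam k) ∧
    hsOf (Sm B₀ i) ≤ 4 / 3 * hs lam ∧
    ∀ R : ι → ℝ, nuv B₀ i ⬝ᵥ R ≠ 0 →
      (B₀.updateRow i R)⁻¹ j i ≠ 0 ∧
      (∑ k, if k = i then 0 else ((B₀.updateRow i R)⁻¹ j k / (B₀.updateRow i R)⁻¹ j i) ^ 2) =
        bet u lam R ∧
      hsE (B₀.updateRow i R)⁻¹ i j = hs lam

/-- Symmetry of `hsE`. -/
def S_SYM : Prop := ∀ (ι : Type) [Fintype ι] [DecidableEq ι] (G : Matrix ι ι ℝ) (i j : ι),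
  hsE Gᵀ j i = hsE G i j

/-- Deterministic inequality for the weights. -/
def S_WSUM : Prop := ∀ (ι : Type) [Fintype ι] [DecidableEq ι] (G : Matrix ι ι ℝ),
  ∑ i, Real.sqrt (w2 G i / e2 G) ≤ Real.sqrt (Fintype.card ι)

/-- Combinatorial partition of unity. -/
def S_PART : Prop := ∀ (ι : Type) [Fintype ι] [DecidableEq ι] (φ : ι → ι → ℝ)
  (RB CB : ι → ι → Prop), (∀ i j, 0 ≤ φ i j) → ∑ i, ∑ j, φ i j = 1 →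
  (∀ i j, RB i j → 3 / 4 * ∑ k, φ i k ≤ φ i j) → (∀ j i, CB j i → 3 / 4 * ∑ k, φ k j ≤ φ i j) →
  1 ≤ 2 * ((∑ i, open Classical in if ∃ j, RB i j then 0 else ∑ j, φ i j) +
    (∑ j, open Classical in if ∃ i, CB j i then 0 else ∑ i, φ i j) +
    ∑ i, ∑ j, open Classical in if RB i j ∧ CB j i then φ i j else 0)

/-- One entry. -/
def S_ENT : Prop := ∀ (μ : Measure ℝ) (K : ℝ), Nice μ K →
  ∀ (ι : Type) [Fintype ι] [DecidableEq ι] (B : Matrix ι ι ℝ) (i j : ι) (m h : ℝ), 0 < h →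
  ∫⁻ t, (if h ^ 2 ≤ hsn (B.updateRow i (Function.update (B i) j (t + m)))⁻¹ then
      ENNReal.ofReal ((B.updateRow i (Function.update (B i) j (t + m)))⁻¹ j i ^ 2 /
        hsn (B.updateRow i (Function.update (B i) j (t + m)))⁻¹) else 0) ∂μ ≤
    ENNReal.ofReal (4 * K / h)

/-- Almost every matrix is invertible. -/
def S_DET : Prop := ∀ (μ : Measure ℝ) (K : ℝ), Nice μ K → ∀ (n : ℕ) (M : Matrix (Fin n) (Fin n) ℝ),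
  ∀ᵐ ω ∂(Pr μ (Fin n × Fin n)), (Matrix.of (fun i j => ω (i, j)) + M).det ≠ 0

end Pool.Agent.W856.SV
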