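import Pool.Agent.W856.SV.M6
import Pool.Agent.W880.SV.CF1
import Pool.Agent.W880.SV.CF2
import Pool.Agent.W880.SV.F1
import Pool.Agent.W880.SV.F3
import Pool.Agent.W63.SV.DOM
import Pool.Agent.W63.SV.DOM2
import Pool.Agent.W597.SV.Tool
import Pool.Agent.W597.SV.FAR
import Pool.Agent.W991.SV.Sbb
import Pool.Agent.W12.SV.Cal
import Pool.Agent.W12.SV.Chb
import Pool.Agent.W12.SV.T
import Pool.Agent.W63.SV.O1
import Pool.Agent.W230.SV.Row
import Pool.Agent.W597.SV.STR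
import Pool.Agent.W597.SV.LOC
import Pool.Agent.W991.SV.Det3
import Pool.Agent.W991.SV.Ent
import Pool.Agent.W12.SV.Det

set_option autoImplicit false

open MeasureTheory Matrix
open scoped ENNReal

namespace Pool.Agent.W856.SV

/-- All parts put together. -/
theorem final (μ : Measure ℝ) (K : ℝ) (hN : Nice μ K) :
    ∃ C : ℝ, 0 < C ∧
      ∀ (n : ℕ) (M : Matrix (Fin n) (Fin n) ℝ) (t : ℝ), 0 < t →
        Measure.pi (fun _ : Fin n × Fin n => μ)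
          {ω | ∃ x : Fin n → ℝ, ∑ i, x i ^ 2 = 1 ∧
            ∑ i, ((Matrix.of (fun i j => ω (i, j)) + M) *ᵥ x) i ^ 2 ≤ t ^ 2 / (n : ℝ)}
          ≤ ENNReal.ofReal (C * t) := by
  have hMOM : S_MOM := Pool.Agent.W597.SV.t_MOM
  have hRES : S_RES := Pool.Agent.W597.SV.t_RES
  have hF3 : S_F3 := Pool.Agent.W880.SV.t_F3 (Pool.Agent.W880.SV.t_CF2 Pool.Agent.W880.SV.t_CF1)
  have hDOM1 : S_DOM1 := Pool.Agent.W63.SVD.t_DOM1 Pool.Agent.W880.SV.t_F1 hF3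
  have hDOM2 : S_DOM2 := Pool.Agent.W63.SVD.t_DOM2 hMOM
  have hDOM3 : S_DOM3 := Pool.Agent.W63.SVD.t_DOM3 hRES
  have hSB : S_SB := Pool.Agent.W63.SVD.t_SB hDOM1 hDOM2 hDOM3
  have hSBB : S_SBB := Pool.Agent.W991.SV.t_SBB hSB
  have hSBN : S_SBN := Pool.Agent.W991.SV.t_SBN hSB
  have hCAL : S_CAL := Pool.Agent.W12.SV.t_CAL
  have hINT : S_INT := Pool.Agent.W12.SV.t_INT
  have hFAR : S_FAR := Pool.Agent.W597.SV.t_FAR hSB
  have hchb : S_CHB := Pool.Agent.W12.SV.t_CHB hSB hRES hMOM hFAR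
  have hO1 : S_O1 := Pool.Agent.W63.SVO.t_O1 hSB hchb hSBB hCAL hINT
  have hO2 : S_O2 := Pool.Agent.W63.SVO.t_O2 hFAR hSBB hSBN hCAL hINT
  have hT : S_T := Pool.Agent.W12.SV.t_T hMOM
  have hROW : S_ROW := Pool.Agent.W230.SV.t_ROW hT hO1 hO2
  have hDET : S_DET := Pool.Agent.W12.SV.t_DET hRES
  exact assembled hSB hSBN hROW Pool.Agent.W597.SV.t_STR Pool.Agent.W597.SV.t_LOC
    Pool.Agent.W991.SV.t_SYM hRES Pool.Agent.W991.SV.t_WSUM Pool.Agent.W991.SV.t_PART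
    Pool.Agent.W991.SV.t_ENT hDET μ K hN

end Pool.Agent.W856.SV
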