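import Mathlib

set_option autoImplicit false

open MeasureTheory Matrix
open scoped ENNReal

namespace Pool.Agent.W856.SV

/-- A law on the line with density bounded by `K`, mean zero and variance one. -/
structure Nice (μ : Measure ℝ) (K : ℝ) : Prop where
  prob : IsProbabilityMeasure μ
  Kpos : 0 < K
  dens : μ ≤ ENNReal.ofReal K • (volume : Measure ℝ)
  sq : Integrable (fun x : ℝ => x ^ 2) μ
  mean : ∫ x, x ∂μ = 0
  var : ∫ x, x ^ 2 ∂μ = 1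

/-- The law of a vector of independent coordinates with law `μ`. -/
noncomputable def Pr (μ : Measure ℝ) (ι : Type) [Fintype ι] : Measure (ι → ℝ) :=
  Measure.pi (fun _ : ι => μ)

/-- Orthonormality of a finite family of real vectors. -/
def ON {κ ι : Type} [Fintype ι] [DecidableEq κ] (u : κ → ι → ℝ) : Prop :=
  ∀ k l, u k ⬝ᵥ u l = if k = l then 1 else 0

/-- `H_*^2` of a family of nonnegative numbers: `((∑ λ)^2 - ∑ λ^2) / ∑ λ`. -/
noncomputable def hs {ι : Type} [Fintype ι] (lam : ι → ℝ) : ℝ :=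
  ((∑ k, lam k) ^ 2 - ∑ k, lam k ^ 2) / ∑ k, lam k

/-- The quadratic form `∑ λ_k (u_k · R)^2`. -/
noncomputable def bet {ι : Type} [Fintype ι] (u : ι → ι → ℝ) (lam : ι → ℝ) (R : ι → ℝ) : ℝ :=
  ∑ k, lam k * (u k ⬝ᵥ R) ^ 2

/-- The quadratic form `∑ λ_k (1 - λ_k / ∑ λ) (u_k · R)^2`. -/
noncomputable def bt {ι : Type} [Fintype ι] (u : ι → ι → ℝ) (lam : ι → ℝ) (R : ι → ℝ) : ℝ :=
  ∑ k, lam k * (1 - lam k / ∑ l, lam l) * (u k ⬝ᵥ R) ^ 2

/-- Data of one row: a unit vector `ν`, an orthonormal basis `u` and weights `λ ≥ 0`,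
with `u_k` orthogonal to `ν` as soon as `λ_k > 0`. -/
structure RowData {ι : Type} [Fintype ι] [DecidableEq ι]
    (ν : ι → ℝ) (u : ι → ι → ℝ) (lam : ι → ℝ) : Prop where
  nu1 : ν ⬝ᵥ ν = 1
  on : ON u
  lam0 : ∀ k, 0 ≤ lam k
  perp : ∀ k, 0 < lam k → u k ⬝ᵥ ν = 0

/-- The weight `1 / sqrt (2 + (ν·R)^2 H_*^2 + 2 bt(R))`. -/
noncomputable def sw {ι : Type} [Fintype ι] (ν : ι → ℝ) (u : ι → ι → ℝ) (lam : ι → ℝ)
    (R : ι → ℝ) : ℝ :=
  1 / Real.sqrt (2 + (ν ⬝ᵥ R) ^ 2 * hs lam + 2 * bt u lam R)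

/-- The function `1 / max (1 + bet(R), (ν·R)^2 h^2)`. -/
noncomputable def JJ {ι : Type} [Fintype ι] (ν : ι → ℝ) (u : ι → ι → ℝ) (lam : ι → ℝ) (h : ℝ)
    (R : ι → ℝ) : ℝ :=
  1 / max (1 + bet u lam R) ((ν ⬝ᵥ R) ^ 2 * h ^ 2)

/-- The expectation of `sw` over the random row `a + c`. -/
noncomputable def XX (μ : Measure ℝ) {ι : Type} [Fintype ι] (ν : ι → ℝ) (u : ι → ι → ℝ)
    (lam : ι → ℝ) (c : ι → ℝ) : ℝ≥0∞ :=
  ∫⁻ a, ENNReal.ofReal (sw ν u lam (a + c)) ∂(Pr μ ι)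

/-- The row is localised and far: some coordinate `j` of `ν` has `ν_j^2 > 3/4` and
`(1 - ν_j^2) m^2 < H_*^2`. -/
def Bad {ι : Type} (ν : ι → ℝ) (m H2 : ℝ) (j : ι) : Prop :=
  3 / 4 < ν j ^ 2 ∧ (1 - ν j ^ 2) * m ^ 2 < H2

section matrix

variable {ι : Type} [Fintype ι] [DecidableEq ι]

/-- The cofactor vector of row `i` (it does not depend on row `i`). -/
noncomputable def kap (B : Matrix ι ι ℝ) (i : ι) : ι → ℝ := fun j => B.adjugate j i

/-- The unit normal vector of the rows other than `i`. -/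
noncomputable def nuv (B : Matrix ι ι ℝ) (i : ι) : ι → ℝ :=
  fun j => kap B i j / Real.sqrt (kap B i ⬝ᵥ kap B i)

/-- `P P^T` for the pseudo-inverse `P` of the matrix without row `i`. -/
noncomputable def Sm (B : Matrix ι ι ℝ) (i : ι) : Matrix ι ι ℝ :=
  (B.updateRow i (nuv B i))⁻¹ * ((B.updateRow i (nuv B i))⁻¹)ᵀ
    - Matrix.vecMulVec (nuv B i) (nuv B i)

/-- `((tr S)^2 - tr (S^2)) / tr S`. -/
noncomputable def hsOf (S : Matrix ι ι ℝ) : ℝ := (S.trace ^ 2 - (S * S).trace) / S.trace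

/-- Squared Hilbert–Schmidt norm. -/
noncomputable def hsn (G : Matrix ι ι ℝ) : ℝ := ∑ l, ∑ k, G l k ^ 2

/-- Squared norm of column `i`. -/
noncomputable def col2 (G : Matrix ι ι ℝ) (i : ι) : ℝ := ∑ l, G l i ^ 2

/-- `(∑ σ^2)^2 - ∑ σ^4`. -/
noncomputable def e2 (G : Matrix ι ι ℝ) : ℝ := hsn G ^ 2 - ∑ k, ∑ l, (Gᵀ * G) k l ^ 2

/-- `∑_k |g_i ∧ g_k|^2`. -/
noncomputable def w2 (G : Matrix ι ι ℝ) (i : ι) : ℝ :=
  col2 G i * hsn G - ∑ k, (Gᵀ * G) i k ^ 2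

/-- `G` minus the rank one matrix which makes row `j` and column `i` vanish. -/
noncomputable def Em (G : Matrix ι ι ℝ) (i j : ι) : Matrix ι ι ℝ :=
  Matrix.of fun l k => G l k - G l i * G j k / G j i

/-- `H_*^2` of the minor. -/
noncomputable def hsE (G : Matrix ι ι ℝ) (i j : ι) : ℝ := hsOf (Em G i j * (Em G i j)ᵀ)

end matrix

/-- Domination of the law of a `d`-dimensional marginal by Lebesgue measure. -/
def Dom (μ : Measure ℝ) (d : ℕ) (C : ℝ) : Prop :=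
  ∀ (ι : Type) [Fintype ι] (a : Fin d → ι → ℝ), ON a →
    (Pr μ ι).map (fun x k => a k ⬝ᵥ x) ≤ ENNReal.ofReal C • (volume : Measure (Fin d → ℝ))

/-- The same for frames without large coordinates. -/
def DomS (μ : Measure ℝ) (d : ℕ) (C : ℝ) : Prop :=
  ∀ (ι : Type) [Fintype ι] (a : Fin d → ι → ℝ), ON a → (∀ i, ∑ k, a k i ^ 2 ≤ 1 / 2) →
    (Pr μ ι).map (fun x k => a k ⬝ᵥ x) ≤ ENNReal.ofReal C • (volume : Measure (Fin d → ℝ))

end Pool.Agent.W856.SV
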