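import Pool.Agent.W856.SV.Stms

set_option autoImplicit false
set_option linter.unusedSectionVars false
set_option linter.style.haveILetI false

open MeasureTheory Matrix
open scoped ENNReal

namespace Pool.Agent.W856.SV

theorem prob_Pr {μ : Measure ℝ} (h : IsProbabilityMeasure μ) (ι : Type) [Fintype ι] :
    IsProbabilityMeasure (Pr μ ι) := by
  unfold Pr
  infer_instance

/-- Marginals of product measures. -/
theorem marg {μ : Measure ℝ} (h : IsProbabilityMeasure μ) {ι κ : Type} [Fintype ι] [Fintype κ]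
    (f : κ → ι) (hf : Function.Injective f) :
    (Pr μ ι).map (fun ω k => ω (f k)) = Pr μ κ := by
  classical
  have hm : Measurable (fun (ω : ι → ℝ) (k : κ) => ω (f k)) := by fun_prop
  unfold Pr
  symm
  apply Measure.pi_eq
  intro s hs
  rw [Measure.map_apply hm (MeasurableSet.univ_pi hs)]
  have hset : (fun (ω : ι → ℝ) (k : κ) => ω (f k)) ⁻¹' (Set.univ.pi s) =
      Set.univ.pi (fun i => if hi : ∃ k, f k = i then s hi.choose else Set.univ) := by
    ext ω
    simp only [Set.mem_preimage, Set.mem_univ_pi]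
    constructor
    · intro hω i
      by_cases hi : ∃ k, f k = i
      · rw [dif_pos hi]
        have := hω hi.choose
        rwa [hi.choose_spec] at this
      · rw [dif_neg hi]; trivial
    · intro hω k
      have h1 := hω (f k)
      have hi : ∃ k', f k' = f k := ⟨k, rfl⟩
      rw [dif_pos hi] at h1
      have h2 : hi.choose = k := hf hi.choose_spec
      rwa [h2] at h1
  rw [hset, Measure.pi_pi]
  have h3 : ∀ i : ι, i ∉ Finset.univ.image f →
      μ (if hi : ∃ k, f k = i then s hi.choose else Set.univ) = 1 := by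
    intro i hi
    have : ¬ ∃ k, f k = i := by
      rintro ⟨k, rfl⟩
      exact hi (Finset.mem_image_of_mem f (Finset.mem_univ k))
    rw [dif_neg this]
    exact measure_univ
  rw [← Finset.prod_subset (Finset.subset_univ (Finset.univ.image f)) (fun i _ hi => h3 i hi)]
  rw [Finset.prod_image (fun a _ b _ hab => hf hab)]
  apply Finset.prod_congr rfl
  intro k _
  have hi : ∃ k', f k' = f k := ⟨k, rfl⟩
  rw [dif_pos hi]
  have h2 : hi.choose = k := hf hi.choose_spec
  rw [h2]

theorem lintegral_marg {μ : Measure ℝ} (h : IsProbabilityMeasure μ) {ι κ : Type} [Fintype ι]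
    [Fintype κ] (f : κ → ι) (hf : Function.Injective f) (F : (κ → ℝ) → ℝ≥0∞) (hF : Measurable F) :
    ∫⁻ ω, F (fun k => ω (f k)) ∂(Pr μ ι) = ∫⁻ a, F a ∂(Pr μ κ) := by
  have hm : Measurable (fun (ω : ι → ℝ) (k : κ) => ω (f k)) := by fun_prop
  rw [← marg h f hf, lintegral_map hF hm]

/-! ### entrywise measurable families of matrices -/

section ME

variable {ι : Type} [Fintype ι] [DecidableEq ι] {X : Type} [MeasurableSpace X]

def ME (B : X → Matrix ι ι ℝ) : Prop := ∀ l k, Measurable fun x => B x l k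

theorem ME.det {B : X → Matrix ι ι ℝ} (h : ME B) : Measurable fun x => (B x).det := by
  simp only [Matrix.det_apply']
  apply Finset.measurable_sum
  intro σ _
  apply Measurable.const_mul
  apply Finset.measurable_prod
  intro i _
  exact h _ _

theorem ME.updateRow {B : X → Matrix ι ι ℝ} (h : ME B) (i : ι) {v : X → ι → ℝ}
    (hv : ∀ k, Measurable fun x => v x k) : ME fun x => (B x).updateRow i (v x) := by
  intro l k
  by_cases hl : l = i
  · subst hl
    simpa [Matrix.updateRow_self] using hv k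
  · simpa [Matrix.updateRow_ne hl] using h l k

theorem ME.adjugate {B : X → Matrix ι ι ℝ} (h : ME B) : ME fun x => (B x).adjugate := by
  intro l k
  simp only [Matrix.adjugate_apply]
  exact (h.updateRow k (v := fun _ => Pi.single l 1) (fun _ => measurable_const)).det

theorem ME.inv {B : X → Matrix ι ι ℝ} (h : ME B) : ME fun x => (B x)⁻¹ := by
  intro l k
  simp only [Matrix.inv_def, Ring.inverse_eq_inv', Matrix.smul_apply, smul_eq_mul]
  exact h.det.inv.mul (h.adjugate l k)

theorem ME.transpose {B : X → Matrix ι ι ℝ} (h : ME B) : ME fun x => (B x)ᵀ := by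
  intro l k
  simpa using h k l

theorem ME.mul {A B : X → Matrix ι ι ℝ} (hA : ME A) (hB : ME B) : ME fun x => A x * B x := by
  intro l k
  simp only [Matrix.mul_apply]
  exact Finset.measurable_sum _ fun j _ => (hA l j).mul (hB j k)

theorem ME.sub {A B : X → Matrix ι ι ℝ} (hA : ME A) (hB : ME B) : ME fun x => A x - B x := by
  intro l k
  simp only [Matrix.sub_apply]
  exact (hA l k).sub (hB l k)

theorem ME.trace {B : X → Matrix ι ι ℝ} (h : ME B) : Measurable fun x => (B x).trace := by
  simp only [Matrix.trace, Matrix.diag_apply]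
  exact Finset.measurable_sum _ fun j _ => h j j

theorem ME.hsOf {B : X → Matrix ι ι ℝ} (h : ME B) : Measurable fun x => hsOf (B x) := by
  unfold SV.hsOf
  exact ((h.trace.pow_const 2).sub ((h.mul h).trace)).div h.trace

theorem ME.kap {B : X → Matrix ι ι ℝ} (h : ME B) (i k : ι) :
    Measurable fun x => kap (B x) i k := h.adjugate k i

theorem ME.nuv {B : X → Matrix ι ι ℝ} (h : ME B) (i k : ι) :
    Measurable fun x => nuv (B x) i k := by
  unfold SV.nuv
  refine (h.kap i k).div (Measurable.sqrt ?_)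
  simp only [dotProduct]
  exact Finset.measurable_sum _ fun j _ => (h.kap i j).mul (h.kap i j)

theorem ME.Sm {B : X → Matrix ι ι ℝ} (h : ME B) (i : ι) : ME fun x => Sm (B x) i := by
  unfold SV.Sm
  have h1 : ME fun x => ((B x).updateRow i (SV.nuv (B x) i))⁻¹ :=
    (h.updateRow i (h.nuv i)).inv
  refine (h1.mul h1.transpose).sub ?_
  intro l k
  simp only [Matrix.vecMulVec_apply]
  exact (h.nuv i l).mul (h.nuv i k)

theorem ME.hsn {B : X → Matrix ι ι ℝ} (h : ME B) : Measurable fun x => hsn (B x) := by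
  unfold SV.hsn
  exact Finset.measurable_sum _ fun l _ => Finset.measurable_sum _ fun k _ => (h l k).pow_const 2

theorem ME.col2 {B : X → Matrix ι ι ℝ} (h : ME B) (i : ι) : Measurable fun x => col2 (B x) i := by
  unfold SV.col2
  exact Finset.measurable_sum _ fun l _ => (h l i).pow_const 2

theorem ME.e2 {B : X → Matrix ι ι ℝ} (h : ME B) : Measurable fun x => e2 (B x) := by
  unfold SV.e2
  exact (h.hsn.pow_const 2).sub (Finset.measurable_sum _ fun l _ =>
    Finset.measurable_sum _ fun k _ => ((h.transpose.mul h) l k).pow_const 2)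

theorem ME.w2 {B : X → Matrix ι ι ℝ} (h : ME B) (i : ι) : Measurable fun x => w2 (B x) i := by
  unfold SV.w2
  exact ((h.col2 i).mul h.hsn).sub (Finset.measurable_sum _ fun k _ =>
    ((h.transpose.mul h) i k).pow_const 2)

end ME

/-! ### quantities of one row -/

section row

variable {ι : Type} [Fintype ι] [DecidableEq ι]

/-- the weight of row `i` -/
noncomputable def Q1 (B : Matrix ι ι ℝ) (i : ι) : ℝ := Real.sqrt (w2 B⁻¹ i / e2 B⁻¹)

/-- its average over row `i` -/
noncomputable def YY (μ : Measure ℝ) (B : Matrix ι ι ℝ) (i : ι) (c : ι → ℝ) : ℝ≥0∞ :=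
  ∫⁻ a, ENNReal.ofReal (Q1 (B.updateRow i (a + c)) i) ∂(Pr μ ι)

theorem kap_updateRow (B : Matrix ι ι ℝ) (i : ι) (R : ι → ℝ) :
    kap (B.updateRow i R) i = kap B i := by
  funext j
  unfold kap
  rw [Matrix.adjugate_apply, Matrix.adjugate_apply, Matrix.updateRow_idem]

theorem nuv_updateRow (B : Matrix ι ι ℝ) (i : ι) (R : ι → ℝ) :
    nuv (B.updateRow i R) i = nuv B i := by
  unfold nuv
  rw [kap_updateRow]

theorem Sm_updateRow (B : Matrix ι ι ℝ) (i : ι) (R : ι → ℝ) :
    Sm (B.updateRow i R) i = Sm B i := by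
  unfold Sm
  rw [nuv_updateRow, Matrix.updateRow_idem]

theorem YY_updateRow (μ : Measure ℝ) (B : Matrix ι ι ℝ) (i : ι) (R c : ι → ℝ) :
    YY μ (B.updateRow i R) i c = YY μ B i c := by
  unfold YY
  simp only [Matrix.updateRow_idem]

theorem ME.Q1 {X : Type} [MeasurableSpace X] {B : X → Matrix ι ι ℝ} (h : ME B) (i : ι) :
    Measurable fun x => Q1 (B x) i := by
  unfold SV.Q1
  exact ((h.inv.w2 i).div h.inv.e2).sqrt

theorem ME.YY {X : Type} [MeasurableSpace X] {B : X → Matrix ι ι ℝ} (h : ME B)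
    {μ : Measure ℝ} (hμ : IsProbabilityMeasure μ) (i : ι) (c : ι → ℝ) :
    Measurable fun x => YY μ (B x) i c := by
  unfold SV.YY
  haveI := prob_Pr hμ ι
  have h1 : ME fun p : X × (ι → ℝ) => (B p.1).updateRow i (p.2 + c) := by
    have h2 : ME fun p : X × (ι → ℝ) => B p.1 := fun l k => (h l k).comp measurable_fst
    refine h2.updateRow i ?_
    intro k
    simp only [Pi.add_apply]
    exact ((measurable_pi_apply k).comp measurable_snd).add_const _
  exact Measurable.lintegral_prod_right' (f := fun p : X × (ι → ℝ) =>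
    ENNReal.ofReal (SV.Q1 ((B p.1).updateRow i (p.2 + c)) i)) (h1.Q1 i).ennreal_ofReal

/-- The row-bad predicate at the coordinate `j`. -/
def RBp (μ : Measure ℝ) (C : ℝ) (M B : Matrix ι ι ℝ) (i j : ι) : Prop :=
  Bad (nuv B i) (nuv B i ⬝ᵥ M i) (hsOf (Sm B i)) j ∧
    1 ≤ ENNReal.ofReal (C * |nuv B i ⬝ᵥ M i| * Real.sqrt (hsOf (Sm B i))) * YY μ B i (M i)

theorem RBp_updateRow (μ : Measure ℝ) (C : ℝ) (M B : Matrix ι ι ℝ) (i j : ι) (R : ι → ℝ) :
    RBp μ C M (B.updateRow i R) i j ↔ RBp μ C M B i j := by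
  unfold RBp
  rw [nuv_updateRow, Sm_updateRow, YY_updateRow]

theorem ME.RBp {X : Type} [MeasurableSpace X] {B : X → Matrix ι ι ℝ} (h : ME B)
    {μ : Measure ℝ} (hμ : IsProbabilityMeasure μ) (C : ℝ) (M : Matrix ι ι ℝ) (i j : ι) :
    MeasurableSet {x | RBp μ C M (B x) i j} := by
  unfold SV.RBp Bad
  have hm : Measurable fun x => SV.nuv (B x) i ⬝ᵥ M i := by
    simp only [dotProduct]
    exact Finset.measurable_sum _ fun k _ => (h.nuv i k).mul_const _
  have hh : Measurable fun x => SV.hsOf (SV.Sm (B x) i) := (h.Sm i).hsOf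
  refine MeasurableSet.inter (MeasurableSet.inter ?_ ?_) ?_
  · exact measurableSet_lt measurable_const ((h.nuv i j).pow_const 2)
  · exact measurableSet_lt ((measurable_const.sub ((h.nuv i j).pow_const 2)).mul
      (hm.pow_const 2)) hh
  · refine measurableSet_le measurable_const (Measurable.mul ?_ (h.YY hμ i (M i)))
    exact ((hm.abs.const_mul C).mul hh.sqrt).ennreal_ofReal

theorem kap_ne_of_det {B : Matrix ι ι ℝ} (h : B.det ≠ 0) (i : ι) : kap B i ≠ 0 := by
  intro h0
  apply h
  rw [Matrix.det_eq_sum_mul_adjugate_row B i]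
  apply Finset.sum_eq_zero
  intro j _
  have : kap B i j = 0 := by rw [h0]; rfl
  unfold kap at this
  rw [this, mul_zero]

theorem det_eq_kap (B : Matrix ι ι ℝ) (i : ι) : B.det = kap B i ⬝ᵥ B i := by
  rw [Matrix.det_eq_sum_mul_adjugate_row B i]
  simp only [dotProduct, kap]
  exact Finset.sum_congr rfl fun j _ => mul_comm _ _

theorem kap_dot_pos {B : Matrix ι ι ℝ} {i : ι} (h : kap B i ≠ 0) : 0 < kap B i ⬝ᵥ kap B i := by
  have h1 : 0 ≤ kap B i ⬝ᵥ kap B i := by
    simp only [dotProduct]
    exact Finset.sum_nonneg fun j _ => mul_self_nonneg _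
  rcases h1.lt_or_eq with h2 | h2
  · exact h2
  · exfalso
    apply h
    funext j
    have h3 : ∑ j, kap B i j * kap B i j = 0 := by
      simpa [dotProduct] using h2.symm
    have h4 := (Finset.sum_eq_zero_iff_of_nonneg (fun j _ => mul_self_nonneg _)).1 h3 j
      (Finset.mem_univ j)
    simpa using mul_self_eq_zero.1 h4

theorem nuv_dot (B : Matrix ι ι ℝ) (i : ι) (R : ι → ℝ) :
    nuv B i ⬝ᵥ R = (kap B i ⬝ᵥ R) / Real.sqrt (kap B i ⬝ᵥ kap B i) := by
  simp only [dotProduct, nuv, Finset.sum_div]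
  exact Finset.sum_congr rfl fun j _ => by ring

theorem nuv_dot_ne {B : Matrix ι ι ℝ} (h : B.det ≠ 0) (i : ι) : nuv B i ⬝ᵥ B i ≠ 0 := by
  rw [nuv_dot, ← det_eq_kap]
  exact div_ne_zero h (Real.sqrt_pos.2 (kap_dot_pos (kap_ne_of_det h i))).ne'

end row

end Pool.Agent.W856.SV
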