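import Pool.Agent.W856.SV.M1

set_option autoImplicit false
set_option linter.unusedSectionVars false
set_option linter.style.haveILetI false

open MeasureTheory Matrix
open scoped ENNReal

namespace Pool.Agent.W856.SV

theorem ae_ne {μ : Measure ℝ} {C : ℝ} (hs : SB1 μ C) {ι : Type} [Fintype ι] (ν : ι → ℝ)
    (h : 0 < ν ⬝ᵥ ν) (c : ι → ℝ) : ∀ᵐ a ∂(Pr μ ι), ν ⬝ᵥ (a + c) ≠ 0 := by
  rw [ae_iff]
  have h1 := hs ι ν (ν ⬝ᵥ c) 0 h le_rfl
  rw [mul_zero, zero_div, ENNReal.ofReal_zero] at h1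
  refine measure_mono_null ?_ (le_antisymm h1 (zero_le))
  intro a ha
  simp only [Set.mem_setOf_eq, not_not] at ha ⊢
  rw [← dotProduct_add, ha, abs_zero]

/-- The one-row proposition with a given constant. -/
def RowC (μ : Measure ℝ) (C : ℝ) : Prop :=
  ∀ (ι : Type) [Fintype ι] [DecidableEq ι] (ν : ι → ℝ) (u : ι → ι → ℝ)
    (lam : ι → ℝ), RowData ν u lam → ∀ (c : ι → ℝ) (h : ℝ), 0 < h →
    ¬ ((∃ j, Bad ν (ν ⬝ᵥ c) (hs lam) j) ∧
        1 ≤ ENNReal.ofReal (C * |ν ⬝ᵥ c| * Real.sqrt (hs lam)) * XX μ ν u lam c) →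
    ∫⁻ a, ENNReal.ofReal (JJ ν u lam h (a + c)) ∂(Pr μ ι) ≤
      ENNReal.ofReal (C / h) * XX μ ν u lam c

theorem sum_lam_nonneg {ι : Type} [Fintype ι] [DecidableEq ι] {ν : ι → ℝ} {u : ι → ι → ℝ}
    {lam : ι → ℝ} (hD : RowData ν u lam) : 0 ≤ ∑ k, lam k :=
  Finset.sum_nonneg fun k _ => hD.lam0 k

theorem bet_nonneg {ι : Type} [Fintype ι] {u : ι → ι → ℝ} {lam : ι → ℝ}
    (h : ∀ k, 0 ≤ lam k) (R : ι → ℝ) : 0 ≤ bet u lam R :=
  Finset.sum_nonneg fun k _ => mul_nonneg (h k) (sq_nonneg _)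

section

variable {ι : Type} [Fintype ι] [DecidableEq ι]

theorem YY_eq_XX {μ : Measure ℝ} {C : ℝ} (hs : SB1 μ C) (hc : 2 ≤ Fintype.card ι)
    {B : Matrix ι ι ℝ} {i : ι} {u : ι → ι → ℝ} {lam : ι → ℝ}
    (hD : RowData (nuv B i) u lam) (hpos : 2 ≤ Fintype.card ι → 0 < ∑ k, lam k)
    (hR : ∀ R : ι → ℝ, nuv B i ⬝ᵥ R ≠ 0 →
      (B.updateRow i R).det ≠ 0 ∧
      (∀ l, (B.updateRow i R)⁻¹ l i = nuv B i l / (nuv B i ⬝ᵥ R)) ∧
      hsn (B.updateRow i R)⁻¹ =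
        ∑ k, lam k + (1 + bet u lam R) / (nuv B i ⬝ᵥ R) ^ 2 ∧
      w2 (B.updateRow i R)⁻¹ i = (∑ k, lam k) / (nuv B i ⬝ᵥ R) ^ 2 ∧
      e2 (B.updateRow i R)⁻¹ = (∑ k, lam k) / (nuv B i ⬝ᵥ R) ^ 2 *
        (2 + (nuv B i ⬝ᵥ R) ^ 2 * SV.hs lam + 2 * bt u lam R)) (c : ι → ℝ) :
    YY μ B i c = XX μ (nuv B i) u lam c := by
  unfold YY XX
  apply lintegral_congr_ae
  filter_upwards [ae_ne hs (nuv B i) (by rw [hD.nu1]; exact one_pos) c] with a ha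
  obtain ⟨-, -, -, h4, h5⟩ := hR (a + c) ha
  congr 1
  unfold Q1 sw
  have hT : 0 < (∑ k, lam k) / (nuv B i ⬝ᵥ (a + c)) ^ 2 :=
    div_pos (hpos hc) (by positivity)
  rw [h4, h5, ← div_div, div_self hT.ne', one_div, one_div, Real.sqrt_inv]

theorem col2_eq {B : Matrix ι ι ℝ} {i : ι} (hν : nuv B i ⬝ᵥ nuv B i = 1) {R : ι → ℝ}
    (h : ∀ l, (B.updateRow i R)⁻¹ l i = nuv B i l / (nuv B i ⬝ᵥ R)) :
    col2 (B.updateRow i R)⁻¹ i = 1 / (nuv B i ⬝ᵥ R) ^ 2 := by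
  unfold col2
  simp only [h, div_pow, ← Finset.sum_div]
  congr 1
  rw [← hν]
  simp only [dotProduct, sq]

theorem row_ineq {μ : Measure ℝ} {C₁ C : ℝ} (hs : SB1 μ C₁) (hC : RowC μ C) (hSTR : S_STR)
    (hc : 2 ≤ Fintype.card ι) {B : Matrix ι ι ℝ} {i : ι} (hk : kap B i ≠ 0) (M : Matrix ι ι ℝ)
    {h : ℝ} (hh : 0 < h) (hRB : ¬ ∃ j, RBp μ C M B i j) :
    ∫⁻ a, (if h ^ 2 ≤ hsn (B.updateRow i (a + M i))⁻¹ then
        ENNReal.ofReal (col2 (B.updateRow i (a + M i))⁻¹ i /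
          hsn (B.updateRow i (a + M i))⁻¹) else 0) ∂(Pr μ ι) ≤
      ENNReal.ofReal (C / h) * YY μ B i (M i) := by
  obtain ⟨u, lam, hD, hhs, hpos, hR⟩ := hSTR ι B i hk
  have hYX := YY_eq_XX hs hc hD hpos hR (M i)
  rw [hYX]
  have hrow := hC ι (nuv B i) u lam hD (M i) h hh (by
    rintro ⟨⟨j, hj⟩, h1⟩
    apply hRB
    refine ⟨j, ?_, ?_⟩
    · rw [hhs]; exact hj
    · rw [hhs, hYX]; exact h1)
  refine le_trans (lintegral_mono_ae ?_) hrow
  filter_upwards [ae_ne hs (nuv B i) (by rw [hD.nu1]; exact one_pos) (M i)] with a ha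
  obtain ⟨-, h2, h3, -, -⟩ := hR (a + M i) ha
  split_ifs with hif
  · apply ENNReal.ofReal_le_ofReal
    rw [col2_eq hD.nu1 h2]
    rw [h3] at hif ⊢
    unfold JJ
    set D := nuv B i ⬝ᵥ (a + M i) with hDdef
    set T := ∑ k, lam k with hT
    set β := bet u lam (a + M i) with hβ
    have hT0 : 0 ≤ T := sum_lam_nonneg hD
    have hβ0 : 0 ≤ β := bet_nonneg hD.lam0 _
    have hD2 : 0 < D ^ 2 := by positivity
    have h5 : 1 / D ^ 2 / (T + (1 + β) / D ^ 2) = 1 / (D ^ 2 * T + 1 + β) := by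
      field_simp
      ring
    rw [h5]
    apply one_div_le_one_div_of_le
    · exact lt_max_of_lt_left (by linarith)
    · apply max_le
      · nlinarith [mul_nonneg hD2.le hT0]
      · have h6 : h ^ 2 * D ^ 2 ≤ (T + (1 + β) / D ^ 2) * D ^ 2 :=
          mul_le_mul_of_nonneg_right hif hD2.le
        have h7 : (T + (1 + β) / D ^ 2) * D ^ 2 = D ^ 2 * T + 1 + β := by
          field_simp
          ring
        rw [h7] at h6
        linarith
  · exact bot_le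

end

/-! ### the random matrix -/

section rand

variable {n : ℕ}

/-- the random matrix -/
noncomputable def Bm (M : Matrix (Fin n) (Fin n) ℝ) (ω : Fin n × Fin n → ℝ) :
    Matrix (Fin n) (Fin n) ℝ := Matrix.of (fun i j => ω (i, j)) + M

theorem ME_Bm (M : Matrix (Fin n) (Fin n) ℝ) : ME (Bm M) := by
  intro l k
  simp only [Bm, Matrix.add_apply, Matrix.of_apply]
  exact (measurable_pi_apply _).add_const _

/-- replacing the coordinates of row `i` -/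
def emb (i : Fin n) (ω : Fin n × Fin n → ℝ) (a : Fin n → ℝ) : Fin n × Fin n → ℝ :=
  fun p => if p.1 = i then a p.2 else ω p

theorem Bm_emb (M : Matrix (Fin n) (Fin n) ℝ) (i : Fin n) (ω : Fin n × Fin n → ℝ)
    (a : Fin n → ℝ) : Bm M (emb i ω a) = (Bm M ω).updateRow i (a + M i) := by
  ext l k
  by_cases hl : l = i
  · subst hl
    simp [Bm, emb, Matrix.updateRow_self]
  · simp [Bm, emb, hl, Matrix.updateRow_ne hl]

theorem row_resample {μ : Measure ℝ} (hμ : IsProbabilityMeasure μ) (hRES : S_RES) (i : Fin n)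
    (G : (Fin n × Fin n → ℝ) → ℝ≥0∞) (hG : Measurable G) :
    ∫⁻ ω, G ω ∂(Pr μ (Fin n × Fin n)) =
      ∫⁻ ω, ∫⁻ a, G (emb i ω a) ∂(Pr μ (Fin n)) ∂(Pr μ (Fin n × Fin n)) := by
  rw [hRES μ hμ (Fin n × Fin n) (fun p => p.1 = i) G hG]
  apply lintegral_congr
  intro ω
  have h1 : Measurable fun a : Fin n → ℝ => G (emb i ω a) := by
    apply hG.comp
    apply measurable_pi_lambda
    intro p
    unfold emb
    by_cases hp : p.1 = i
    · simp only [if_pos hp]; exact measurable_pi_apply _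
    · simp only [if_neg hp]; exact measurable_const
  rw [← lintegral_marg hμ (fun j : Fin n => ((i, j) : Fin n × Fin n))
    (fun a b hab => (Prod.mk.injEq _ _ _ _ ▸ hab).2) _ h1]
  apply lintegral_congr
  intro y
  congr 1
  funext p
  unfold emb
  by_cases hp : p.1 = i
  · rw [if_pos hp, if_pos hp, ← hp]
  · rw [if_neg hp, if_neg hp]

/-- The contribution of row `i`. -/
theorem row_term {μ : Measure ℝ} (hμ : IsProbabilityMeasure μ) {C₁ C : ℝ} (hs : SB1 μ C₁)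
    (hC : RowC μ C) (hSTR : S_STR) (hRES : S_RES) (hn : 2 ≤ n) (M : Matrix (Fin n) (Fin n) ℝ)
    (hdet : ∀ᵐ ω ∂(Pr μ (Fin n × Fin n)), (Bm M ω).det ≠ 0)
    {h : ℝ} (hh : 0 < h) (i : Fin n) :
    ∫⁻ ω, (open Classical in if (¬ ∃ j, RBp μ C M (Bm M ω) i j) ∧ h ^ 2 ≤ hsn (Bm M ω)⁻¹ then
        ENNReal.ofReal (col2 (Bm M ω)⁻¹ i / hsn (Bm M ω)⁻¹) else 0) ∂(Pr μ (Fin n × Fin n)) ≤
      ENNReal.ofReal (C / h) * ∫⁻ ω, ENNReal.ofReal (Q1 (Bm M ω) i) ∂(Pr μ (Fin n × Fin n)) := by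
  classical
  have hB := ME_Bm M
  have hmeasRB : MeasurableSet {ω | ∃ j, RBp μ C M (Bm M ω) i j} := by
    have : {ω | ∃ j, RBp μ C M (Bm M ω) i j} = ⋃ j, {ω | RBp μ C M (Bm M ω) i j} := by
      ext ω; simp
    rw [this]
    exact MeasurableSet.iUnion fun j => hB.RBp hμ C M i j
  have hmh : MeasurableSet {ω : Fin n × Fin n → ℝ | h ^ 2 ≤ hsn (Bm M ω)⁻¹} :=
    measurableSet_le measurable_const hB.inv.hsn
  have hmF : Measurable fun ω => (if (¬ ∃ j, RBp μ C M (Bm M ω) i j) ∧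
      h ^ 2 ≤ hsn (Bm M ω)⁻¹ then
        ENNReal.ofReal (col2 (Bm M ω)⁻¹ i / hsn (Bm M ω)⁻¹) else 0) := by
    refine Measurable.ite (hmeasRB.compl.inter hmh) ?_ measurable_const
    exact ((hB.inv.col2 i).div hB.inv.hsn).ennreal_ofReal
  rw [row_resample hμ hRES i _ hmF]
  rw [row_resample hμ hRES i (fun ω => ENNReal.ofReal (Q1 (Bm M ω) i))
    (hB.Q1 i).ennreal_ofReal]
  rw [← lintegral_const_mul' _ _ ENNReal.ofReal_ne_top]
  apply lintegral_mono_ae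
  filter_upwards [hdet] with ω hω
  have hY : ∫⁻ a, ENNReal.ofReal (Q1 (Bm M (emb i ω a)) i) ∂(Pr μ (Fin n)) =
      YY μ (Bm M ω) i (M i) := by
    unfold YY
    simp only [Bm_emb]
  rw [hY]
  by_cases hRB : ∃ j, RBp μ C M (Bm M ω) i j
  · have h0 : ∀ a : Fin n → ℝ, ¬ ((¬ ∃ j, RBp μ C M (Bm M (emb i ω a)) i j) ∧
        h ^ 2 ≤ hsn (Bm M (emb i ω a))⁻¹) := by
      intro a h1
      apply h1.1
      obtain ⟨j, hj⟩ := hRB
      refine ⟨j, ?_⟩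
      rw [Bm_emb]
      exact (RBp_updateRow μ C M _ i j _).2 hj
    simp only [if_neg (h0 _), lintegral_zero]
    exact bot_le
  · have h1 := row_ineq (μ := μ) hs hC hSTR (by simpa using hn) (kap_ne_of_det hω i) M hh hRB
    refine le_trans (lintegral_mono ?_) h1
    intro a
    simp only [Bm_emb]
    split_ifs with h2 h3
    · exact le_rfl
    · exact absurd h2.2 h3
    · exact bot_le
    · exact le_rfl

theorem row_part {μ : Measure ℝ} (hμ : IsProbabilityMeasure μ) {C₁ C : ℝ} (hs : SB1 μ C₁)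
    (hC : RowC μ C) (hSTR : S_STR) (hRES : S_RES) (hW : S_WSUM) (hn : 2 ≤ n)
    (M : Matrix (Fin n) (Fin n) ℝ)
    (hdet : ∀ᵐ ω ∂(Pr μ (Fin n × Fin n)), (Bm M ω).det ≠ 0)
    {h : ℝ} (hh : 0 < h) :
    ∑ i, ∫⁻ ω, (open Classical in if (¬ ∃ j, RBp μ C M (Bm M ω) i j) ∧
        h ^ 2 ≤ hsn (Bm M ω)⁻¹ then
        ENNReal.ofReal (col2 (Bm M ω)⁻¹ i / hsn (Bm M ω)⁻¹) else 0) ∂(Pr μ (Fin n × Fin n)) ≤
      ENNReal.ofReal (C / h) * ENNReal.ofReal (Real.sqrt n) := by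
  haveI := prob_Pr hμ (Fin n × Fin n)
  refine le_trans (Finset.sum_le_sum fun i _ =>
    row_term hμ hs hC hSTR hRES hn M hdet hh i) ?_
  rw [← Finset.mul_sum]
  gcongr
  rw [← lintegral_finset_sum _ (fun i _ => ((ME_Bm M).Q1 i).ennreal_ofReal)]
  have h1 : ∀ ω : Fin n × Fin n → ℝ, ∑ i, ENNReal.ofReal (Q1 (Bm M ω) i) ≤
      ENNReal.ofReal (Real.sqrt n) := by
    intro ω
    rw [← ENNReal.ofReal_sum_of_nonneg (fun i _ => by unfold Q1; positivity)]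
    apply ENNReal.ofReal_le_ofReal
    have := hW (Fin n) (Bm M ω)⁻¹
    simpa [Q1] using this
  refine le_trans (lintegral_mono h1) ?_
  rw [lintegral_const, measure_univ, mul_one]

theorem sum_Q1_le {μ : Measure ℝ} (hμ : IsProbabilityMeasure μ) (hW : S_WSUM)
    (M : Matrix (Fin n) (Fin n) ℝ) :
    ∑ i, ∫⁻ ω, ENNReal.ofReal (Q1 (Bm M ω) i) ∂(Pr μ (Fin n × Fin n)) ≤
      ENNReal.ofReal (Real.sqrt n) := by
  haveI := prob_Pr hμ (Fin n × Fin n)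
  rw [← lintegral_finset_sum _ (fun i _ => ((ME_Bm M).Q1 i).ennreal_ofReal)]
  have h1 : ∀ ω : Fin n × Fin n → ℝ, ∑ i, ENNReal.ofReal (Q1 (Bm M ω) i) ≤
      ENNReal.ofReal (Real.sqrt n) := by
    intro ω
    rw [← ENNReal.ofReal_sum_of_nonneg (fun i _ => by unfold Q1; positivity)]
    apply ENNReal.ofReal_le_ofReal
    have := hW (Fin n) (Bm M ω)⁻¹
    simpa [Q1] using this
  refine le_trans (lintegral_mono h1) ?_
  rw [lintegral_const, measure_univ, mul_one]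

end rand

end Pool.Agent.W856.SV
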