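import Pool.Agent.W856.SV.M2

set_option autoImplicit false
set_option linter.unusedSectionVars false
set_option linter.style.haveILetI false

open MeasureTheory Matrix
open scoped ENNReal

namespace Pool.Agent.W856.SV

/-- small ball bound without normal vector, with a given constant -/
def SBNC (μ : Measure ℝ) (C : ℝ) : Prop :=
  ∀ (ι : Type) [Fintype ι] [DecidableEq ι] (u : ι → ι → ℝ)
    (lam : ι → ℝ), ON u → (∀ k, 0 ≤ lam k) → 0 < hs lam → ∀ (c : ι → ℝ) (s : ℝ), 0 ≤ s →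
    Pr μ ι {a | bet u lam (a + c) ≤ s ^ 2} ≤ ENNReal.ofReal (C * (s ^ 2 / hs lam))

section

variable {ι : Type} [Fintype ι] [DecidableEq ι]

theorem nuv_unit {B : Matrix ι ι ℝ} {i : ι} (h : kap B i ≠ 0) : nuv B i ⬝ᵥ nuv B i = 1 := by
  rw [nuv_dot]
  have h1 : kap B i ⬝ᵥ nuv B i = (kap B i ⬝ᵥ kap B i) / Real.sqrt (kap B i ⬝ᵥ kap B i) := by
    rw [dotProduct_comm, nuv_dot]
  rw [h1, div_div, Real.mul_self_sqrt (kap_dot_pos h).le, div_self (kap_dot_pos h).ne']

theorem nuv_sq_le {B : Matrix ι ι ℝ} {i : ι} (h : kap B i ≠ 0) (j : ι) : nuv B i j ^ 2 ≤ 1 := by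
  have h1 := nuv_unit h
  rw [← h1]
  simp only [dotProduct, sq]
  exact Finset.single_le_sum (f := fun k => nuv B i k * nuv B i k)
    (fun k _ => mul_self_nonneg _) (Finset.mem_univ j)

theorem nuv_unique {B : Matrix ι ι ℝ} {i : ι} (h : kap B i ≠ 0) {j j' : ι}
    (hj : 3 / 4 < nuv B i j ^ 2) (hj' : 3 / 4 < nuv B i j' ^ 2) : j = j' := by
  by_contra hne
  have h1 := nuv_unit h
  have h2 : nuv B i j ^ 2 + nuv B i j' ^ 2 ≤ 1 := by
    rw [← h1]
    simp only [dotProduct, ← sq]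
    rw [← Finset.sum_pair (f := fun k => nuv B i k ^ 2) hne]
    exact Finset.sum_le_sum_of_subset_of_nonneg (Finset.subset_univ _)
      (fun k _ _ => sq_nonneg _)
  linarith

theorem kap_transpose {B : Matrix ι ι ℝ} (hB : B.det ≠ 0) (j k : ι) :
    kap Bᵀ j k = B.det * B⁻¹ j k := by
  have h1 : kap Bᵀ j k = B.adjugate j k := by
    unfold kap
    rw [← Matrix.adjugate_transpose]
    rfl
  rw [h1, Matrix.inv_def, Matrix.smul_apply,
    smul_eq_mul, Ring.inverse_eq_inv', ← mul_assoc, mul_inv_cancel₀ hB, one_mul]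

/-- squared norm of a row -/
noncomputable def row2 (G : Matrix ι ι ℝ) (j : ι) : ℝ := ∑ l, G j l ^ 2

theorem nuv_transpose_sq {B : Matrix ι ι ℝ} (hB : B.det ≠ 0) (j i : ι) :
    nuv Bᵀ j i ^ 2 = B⁻¹ j i ^ 2 / row2 B⁻¹ j := by
  unfold nuv
  rw [div_pow, Real.sq_sqrt (by
    simp only [dotProduct]
    exact Finset.sum_nonneg fun k _ => mul_self_nonneg _), kap_transpose hB]
  have h1 : kap Bᵀ j ⬝ᵥ kap Bᵀ j = B.det ^ 2 * row2 B⁻¹ j := by
    simp only [dotProduct, kap_transpose hB, row2, Finset.mul_sum]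
    exact Finset.sum_congr rfl fun k _ => by ring
  rw [h1, mul_pow, mul_div_mul_left _ _ (by positivity)]

/-- The key estimate for doubly bad pairs, for a fixed matrix. -/
theorem db_inner {μ : Measure ℝ} {C₁ C Cn : ℝ} (hs1 : SB1 μ C₁) (hSBN : SBNC μ Cn)
    (hCn : 0 < Cn) (hSTR : S_STR) (hLOC : S_LOC) (hSYM : S_SYM)
    (M B : Matrix ι ι ℝ) (i j : ι) (hk : kap B i ≠ 0) (hRB : RBp μ C M B i j) :
    Pr μ ι {a | RBp μ C Mᵀ (B.updateRow i (a + M i))ᵀ j i ∧
      |nuv B i ⬝ᵥ M i| ≤ |nuv (B.updateRow i (a + M i))ᵀ j ⬝ᵥ Mᵀ j|} ≤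
      ENNReal.ofReal (2 * Cn) * (ENNReal.ofReal C * YY μ B i (M i)) := by
  obtain ⟨⟨hν, hbad⟩, hYY⟩ := hRB
  set m := nuv B i ⬝ᵥ M i with hm
  set H := hsOf (Sm B i) with hH
  have hν1 := nuv_sq_le hk j
  have hH0 : 0 < H := lt_of_le_of_lt (mul_nonneg (by linarith) (sq_nonneg m)) hbad
  obtain ⟨u, lam, hON, hlam, hle, hR⟩ := hLOC ι B i j hν
  rw [← hH] at hle
  have hs0 : 0 < hs lam := by linarith
  have hpos : 0 < C * |m| * Real.sqrt H := by
    by_contra hcon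
    rw [ENNReal.ofReal_eq_zero.2 (not_lt.1 hcon), zero_mul] at hYY
    exact absurd hYY (by norm_num)
  have hm0 : 0 < |m| := by
    rcases (abs_nonneg m).lt_or_eq with h | h
    · exact h
    · rw [← h] at hpos; simp at hpos
  have hsH : 0 < Real.sqrt H := Real.sqrt_pos.2 hH0
  have hC : 0 < C := by
    by_contra hcon
    have : C * |m| * Real.sqrt H ≤ 0 := by
      apply mul_nonpos_of_nonpos_of_nonneg _ hsH.le
      exact mul_nonpos_of_nonpos_of_nonneg (not_lt.1 hcon) hm0.le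
    linarith
  have hsh : 0 < Real.sqrt (hs lam) := Real.sqrt_pos.2 hs0
  -- the small ball event
  set s := Real.sqrt (Real.sqrt (hs lam) / |m|) with hsdef
  have hs2 : s ^ 2 = Real.sqrt (hs lam) / |m| := Real.sq_sqrt (by positivity)
  have hsub : ∀ a : ι → ℝ, nuv B i ⬝ᵥ (a + M i) ≠ 0 →
      (RBp μ C Mᵀ (B.updateRow i (a + M i))ᵀ j i ∧
        |m| ≤ |nuv (B.updateRow i (a + M i))ᵀ j ⬝ᵥ Mᵀ j|) →
      bet u lam (a + M i) ≤ s ^ 2 := by
    rintro a ha ⟨⟨⟨hτ, hbad'⟩, -⟩, hmm⟩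
    obtain ⟨hG, hsum, hE⟩ := hR (a + M i) ha
    have hdet : (B.updateRow i (a + M i)).det ≠ 0 := by
      obtain ⟨_, _, _, _, _, hR'⟩ := hSTR ι B i hk
      exact (hR' _ ha).1
    set B' := B.updateRow i (a + M i) with hB'
    have hdetT : (B'ᵀ).det ≠ 0 := by rwa [Matrix.det_transpose]
    obtain ⟨u', lam', -, -, hle', hR'⟩ := hLOC ι B'ᵀ j i hτ
    obtain ⟨-, -, hE'⟩ := hR' (B'ᵀ j) (nuv_dot_ne hdetT j)
    rw [Matrix.updateRow_eq_self, ← Matrix.transpose_nonsing_inv, hSYM, hE] at hE'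
    rw [← hE'] at hle'
    set r := bet u lam (a + M i) with hr
    have hr0 : 0 ≤ r := bet_nonneg hlam _
    -- τ^2 = 1 / (1 + r)
    have hrow : row2 B'⁻¹ j = B'⁻¹ j i ^ 2 * (1 + r) := by
      rw [← hsum]
      unfold row2
      rw [← Finset.add_sum_erase _ _ (Finset.mem_univ i), mul_add, mul_one]
      congr 1
      rw [Finset.mul_sum, ← Finset.add_sum_erase _ _ (Finset.mem_univ i)]
      simp only [if_true, mul_zero, zero_add]
      apply Finset.sum_congr rfl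
      intro k hk'
      rw [if_neg (Finset.ne_of_mem_erase hk')]
      field_simp
    have hτ2 : nuv B'ᵀ j i ^ 2 = 1 / (1 + r) := by
      rw [nuv_transpose_sq hdet, hrow, one_div, div_mul_eq_div_div, div_self (by positivity),
        one_div]
    rw [hτ2] at hτ hbad'
    set mc := nuv B'ᵀ j ⬝ᵥ Mᵀ j with hmc
    have h1r : 0 < 1 + r := by linarith
    have hr3 : r < 1 / 3 := by
      rw [lt_div_iff₀ h1r] at hτ
      linarith
    have h4 : r * mc ^ 2 < (16 / 9) * hs lam := by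
      have h5 : (1 - 1 / (1 + r)) * mc ^ 2 = r * mc ^ 2 / (1 + r) := by
        field_simp
        ring
      rw [h5] at hbad'
      have h6 : r * mc ^ 2 / (1 + r) < 4 / 3 * hs lam := lt_of_lt_of_le hbad' hle'
      rw [div_lt_iff₀ h1r] at h6
      nlinarith
    have h7 : m ^ 2 ≤ mc ^ 2 := sq_le_sq.2 hmm
    have h8 : r * m ^ 2 ≤ (16 / 9) * hs lam :=
      le_trans (mul_le_mul_of_nonneg_left h7 hr0) h4.le
    have h9 : (r * |m|) ^ 2 ≤ (Real.sqrt (hs lam)) ^ 2 := by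
      rw [Real.sq_sqrt hs0.le, mul_pow, sq_abs]
      nlinarith
    have h10 : r * |m| ≤ Real.sqrt (hs lam) :=
      le_of_sq_le_sq h9 (Real.sqrt_nonneg _)
    rw [hs2, le_div_iff₀ hm0]
    exact h10
  have hmeas : Pr μ ι {a | RBp μ C Mᵀ (B.updateRow i (a + M i))ᵀ j i ∧
      |m| ≤ |nuv (B.updateRow i (a + M i))ᵀ j ⬝ᵥ Mᵀ j|} ≤
      Pr μ ι {a | bet u lam (a + M i) ≤ s ^ 2} := by
    apply measure_mono_ae
    filter_upwards [ae_ne hs1 (nuv B i) (by rw [nuv_unit hk]; exact one_pos) (M i)] with a ha h1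
    exact hsub a ha h1
  refine le_trans hmeas (le_trans (hSBN ι u lam hON hlam hs0 (M i) s (Real.sqrt_nonneg _)) ?_)
  have h11 : ENNReal.ofReal (1 / (|m| * Real.sqrt H)) ≤ ENNReal.ofReal C * YY μ B i (M i) := by
    calc ENNReal.ofReal (1 / (|m| * Real.sqrt H))
        = ENNReal.ofReal (1 / (|m| * Real.sqrt H)) * 1 := (mul_one _).symm
      _ ≤ ENNReal.ofReal (1 / (|m| * Real.sqrt H)) *
          (ENNReal.ofReal (C * |m| * Real.sqrt H) * YY μ B i (M i)) := by gcongr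
      _ = ENNReal.ofReal (1 / (|m| * Real.sqrt H) * (C * |m| * Real.sqrt H)) *
          YY μ B i (M i) := by
            rw [← mul_assoc, ← ENNReal.ofReal_mul (by positivity)]
      _ = ENNReal.ofReal C * YY μ B i (M i) := by
            congr 2
            field_simp
  refine le_trans ?_ (mul_le_mul_right h11 (ENNReal.ofReal (2 * Cn)))
  rw [← ENNReal.ofReal_mul (by positivity)]
  apply ENNReal.ofReal_le_ofReal
  rw [hs2]
  have h12 : Real.sqrt (hs lam) / |m| / hs lam = 1 / (|m| * Real.sqrt (hs lam)) := by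
    rw [div_div, div_eq_div_iff (by positivity) (by positivity)]
    have := Real.mul_self_sqrt hs0.le
    nlinarith
  rw [h12]
  have h13 : Real.sqrt H ≤ 2 * Real.sqrt (hs lam) := by
    rw [show (2 : ℝ) * Real.sqrt (hs lam) = Real.sqrt (4 * hs lam) by
      rw [Real.sqrt_mul (by norm_num), show (4 : ℝ) = 2 ^ 2 by norm_num,
        Real.sqrt_sq (by norm_num)]]
    exact Real.sqrt_le_sqrt (by linarith)
  rw [mul_one_div, mul_one_div, div_le_div_iff₀ (by positivity) (by positivity)]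
  have h14 : |m| * Real.sqrt H ≤ |m| * (2 * Real.sqrt (hs lam)) :=
    mul_le_mul_of_nonneg_left h13 hm0.le
  nlinarith

end

end Pool.Agent.W856.SV
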