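import Pool.Agent.W856.SV.M3

set_option autoImplicit false
set_option linter.unusedSectionVars false
set_option linter.style.haveILetI false

open MeasureTheory Matrix
open scoped ENNReal

namespace Pool.Agent.W856.SV

variable {n : ℕ}

theorem Bm_swap (M : Matrix (Fin n) (Fin n) ℝ) (ω : Fin n × Fin n → ℝ) :
    Bm Mᵀ (fun p => ω p.swap) = (Bm M ω)ᵀ := by
  ext l k
  simp [Bm]

theorem lintegral_swap' {μ : Measure ℝ} (hμ : IsProbabilityMeasure μ)
    (G : (Fin n × Fin n → ℝ) → ℝ≥0∞) (hG : Measurable G) :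
    ∫⁻ ω, G (fun p => ω p.swap) ∂(Pr μ (Fin n × Fin n)) = ∫⁻ ω, G ω ∂(Pr μ (Fin n × Fin n)) :=
  lintegral_marg hμ Prod.swap Prod.swap_injective G hG

theorem hsn_transpose (G : Matrix (Fin n) (Fin n) ℝ) : hsn Gᵀ = hsn G := by
  unfold hsn
  rw [Finset.sum_comm]
  rfl

/-- the doubly bad set -/
def DBs (μ : Measure ℝ) (C : ℝ) (M : Matrix (Fin n) (Fin n) ℝ) (i j : Fin n) :
    Set (Fin n × Fin n → ℝ) :=
  {ω | RBp μ C M (Bm M ω) i j ∧ RBp μ C Mᵀ (Bm M ω)ᵀ j i}

/-- the part of the doubly bad set with the smaller shift on the row side -/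
def DBr (μ : Measure ℝ) (C : ℝ) (M : Matrix (Fin n) (Fin n) ℝ) (i j : Fin n) :
    Set (Fin n × Fin n → ℝ) :=
  {ω | RBp μ C M (Bm M ω) i j ∧ RBp μ C Mᵀ (Bm M ω)ᵀ j i ∧
    |nuv (Bm M ω) i ⬝ᵥ M i| ≤ |nuv (Bm M ω)ᵀ j ⬝ᵥ Mᵀ j|}

theorem meas_nudot {μ : Measure ℝ} {X : Type} [MeasurableSpace X]
    {B : X → Matrix (Fin n) (Fin n) ℝ} (h : ME B) (i : Fin n) (c : Fin n → ℝ) :
    Measurable fun x => nuv (B x) i ⬝ᵥ c := by
  simp only [dotProduct]
  exact Finset.measurable_sum _ fun k _ => (h.nuv i k).mul_const _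

theorem measDBs {μ : Measure ℝ} (hμ : IsProbabilityMeasure μ) (C : ℝ)
    (M : Matrix (Fin n) (Fin n) ℝ) (i j : Fin n) : MeasurableSet (DBs μ C M i j) :=
  ((ME_Bm M).RBp hμ C M i j).inter ((ME_Bm M).transpose.RBp hμ C Mᵀ j i)

theorem measDBr {μ : Measure ℝ} (hμ : IsProbabilityMeasure μ) (C : ℝ)
    (M : Matrix (Fin n) (Fin n) ℝ) (i j : Fin n) : MeasurableSet (DBr μ C M i j) := by
  refine ((ME_Bm M).RBp hμ C M i j).inter
    (((ME_Bm M).transpose.RBp hμ C Mᵀ j i).inter ?_)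
  exact measurableSet_le (meas_nudot (μ := μ) (ME_Bm M) i (M i)).abs
    (meas_nudot (μ := μ) (ME_Bm M).transpose j (Mᵀ j)).abs

theorem sum_ite_unique {ι : Type} [Fintype ι] (p : ι → Prop) [DecidablePred p] (x : ℝ≥0∞)
    (h : ∀ i j, p i → p j → i = j) : ∑ i, (if p i then x else 0) ≤ x := by
  classical
  by_cases hex : ∃ i, p i
  · obtain ⟨i, hi⟩ := hex
    have h1 : ∀ j, (if p j then x else 0) = if j = i then x else 0 := by
      intro j
      by_cases hj : p j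
      · rw [if_pos hj, if_pos (h j i hj hi)]
      · rw [if_neg hj, if_neg (fun hji => hj (by rw [hji]; exact hi))]
    simp only [h1, Finset.sum_ite_eq', Finset.mem_univ, if_true, le_refl]
  · have h1 : ∀ j, (if p j then x else 0) = 0 := fun j => if_neg fun hj => hex ⟨j, hj⟩
    simp [h1]

/-- Expected number of doubly bad pairs in row `i`. -/
theorem db_row {μ : Measure ℝ} (hμ : IsProbabilityMeasure μ) {C₁ C Cn : ℝ} (hs1 : SB1 μ C₁)
    (hSBN : SBNC μ Cn) (hCn : 0 < Cn) (hSTR : S_STR) (hLOC : S_LOC) (hSYM : S_SYM)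
    (hRES : S_RES) (M : Matrix (Fin n) (Fin n) ℝ)
    (hdet : ∀ᵐ ω ∂(Pr μ (Fin n × Fin n)), (Bm M ω).det ≠ 0) (i : Fin n) :
    ∑ j, Pr μ (Fin n × Fin n) (DBr μ C M i j) ≤
      ENNReal.ofReal (2 * Cn) * (ENNReal.ofReal C *
        ∫⁻ ω, ENNReal.ofReal (Q1 (Bm M ω) i) ∂(Pr μ (Fin n × Fin n))) := by
  classical
  have h1 : ∀ j, Pr μ (Fin n × Fin n) (DBr μ C M i j) ≤
      ∫⁻ ω, (if RBp μ C M (Bm M ω) i j then
        ENNReal.ofReal (2 * Cn) * (ENNReal.ofReal C * YY μ (Bm M ω) i (M i)) else 0)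
        ∂(Pr μ (Fin n × Fin n)) := by
    intro j
    have hm := measDBr hμ C M i j
    rw [← lintegral_indicator_one hm,
      row_resample hμ hRES i _ (measurable_one.indicator hm)]
    apply lintegral_mono_ae
    filter_upwards [hdet] with ω hω
    split_ifs with hRB
    · refine le_trans ?_ (db_inner hs1 hSBN hCn hSTR hLOC hSYM M (Bm M ω) i j
        (kap_ne_of_det hω i) hRB)
      have h2 : ∀ a : Fin n → ℝ, (DBr μ C M i j).indicator (1 : (Fin n × Fin n → ℝ) → ℝ≥0∞)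
          (emb i ω a) ≤ ({a | RBp μ C Mᵀ ((Bm M ω).updateRow i (a + M i))ᵀ j i ∧
            |nuv (Bm M ω) i ⬝ᵥ M i| ≤
              |nuv ((Bm M ω).updateRow i (a + M i))ᵀ j ⬝ᵥ Mᵀ j|} : Set (Fin n → ℝ)).indicator
            1 a := by
        intro a
        by_cases ha : emb i ω a ∈ DBr μ C M i j
        · rw [Set.indicator_of_mem ha, Set.indicator_of_mem]
          · rfl
          · obtain ⟨-, h3, h4⟩ := ha
            rw [Bm_emb] at h3 h4
            rw [nuv_updateRow] at h4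
            exact ⟨h3, h4⟩
        · rw [Set.indicator_of_notMem ha]
          exact bot_le
      refine le_trans (lintegral_mono h2) ?_
      exact lintegral_indicator_one_le _
    · have h3 : ∀ a : Fin n → ℝ, (DBr μ C M i j).indicator
          (1 : (Fin n × Fin n → ℝ) → ℝ≥0∞) (emb i ω a) = 0 := by
        intro a
        apply Set.indicator_of_notMem
        rintro ⟨h4, -⟩
        rw [Bm_emb] at h4
        exact hRB ((RBp_updateRow μ C M _ i j _).1 h4)
      simp only [h3, lintegral_zero, le_refl]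
  refine le_trans (Finset.sum_le_sum fun j _ => h1 j) ?_
  rw [← lintegral_finset_sum]
  swap
  · intro j _
    refine Measurable.ite ((ME_Bm M).RBp hμ C M i j) ?_ measurable_const
    exact (((ME_Bm M).YY hμ i (M i)).const_mul _).const_mul _
  have h5 : ∫⁻ ω, ENNReal.ofReal (Q1 (Bm M ω) i) ∂(Pr μ (Fin n × Fin n)) =
      ∫⁻ ω, YY μ (Bm M ω) i (M i) ∂(Pr μ (Fin n × Fin n)) := by
    rw [row_resample hμ hRES i _ ((ME_Bm M).Q1 i).ennreal_ofReal]
    apply lintegral_congr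
    intro ω
    unfold YY
    simp only [Bm_emb]
  rw [h5, ← lintegral_const_mul' _ _ ENNReal.ofReal_ne_top,
    ← lintegral_const_mul' _ _ ENNReal.ofReal_ne_top]
  apply lintegral_mono_ae
  filter_upwards [hdet] with ω hω
  apply sum_ite_unique
  intro j j' hj hj'
  exact nuv_unique (kap_ne_of_det hω i) hj.1.1 hj'.1.1

/-- Expected number of doubly bad pairs. -/
theorem db_count {μ : Measure ℝ} (hμ : IsProbabilityMeasure μ) {C₁ C Cn : ℝ} (hs1 : SB1 μ C₁)
    (hSBN : SBNC μ Cn) (hCn : 0 < Cn) (hSTR : S_STR) (hLOC : S_LOC) (hSYM : S_SYM)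
    (hRES : S_RES) (hW : S_WSUM) (M : Matrix (Fin n) (Fin n) ℝ)
    (hdet : ∀ M : Matrix (Fin n) (Fin n) ℝ, ∀ᵐ ω ∂(Pr μ (Fin n × Fin n)), (Bm M ω).det ≠ 0) :
    ∑ i, ∑ j, Pr μ (Fin n × Fin n) (DBs μ C M i j) ≤
      2 * (ENNReal.ofReal (2 * Cn) * (ENNReal.ofReal C * ENNReal.ofReal (Real.sqrt n))) := by
  classical
  have hA : ∀ M : Matrix (Fin n) (Fin n) ℝ, ∑ i, ∑ j, Pr μ (Fin n × Fin n) (DBr μ C M i j) ≤
      ENNReal.ofReal (2 * Cn) * (ENNReal.ofReal C * ENNReal.ofReal (Real.sqrt n)) := by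
    intro M
    refine le_trans (Finset.sum_le_sum fun i _ =>
      db_row hμ hs1 hSBN hCn hSTR hLOC hSYM hRES M (hdet M) i) ?_
    rw [← Finset.mul_sum, ← Finset.mul_sum]
    gcongr
    exact sum_Q1_le hμ hW M
  have hsw : ∀ i j, Pr μ (Fin n × Fin n) ((fun (ω : Fin n × Fin n → ℝ) p => ω p.swap) ⁻¹'
      (DBr μ C Mᵀ j i)) = Pr μ (Fin n × Fin n) (DBr μ C Mᵀ j i) := by
    intro i j
    have hm := measDBr hμ C Mᵀ j i
    have h1 := lintegral_swap' hμ ((DBr μ C Mᵀ j i).indicator 1) (measurable_one.indicator hm)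
    rw [lintegral_indicator_one hm] at h1
    rw [← h1, ← lintegral_indicator_one (by
      have hsm : Measurable (fun (ω : Fin n × Fin n → ℝ) (p : Fin n × Fin n) => ω p.swap) := by
        fun_prop
      exact hsm hm)]
    rfl
  have hle : ∀ i j, Pr μ (Fin n × Fin n) (DBs μ C M i j) ≤
      Pr μ (Fin n × Fin n) (DBr μ C M i j) + Pr μ (Fin n × Fin n) (DBr μ C Mᵀ j i) := by
    intro i j
    rw [← hsw i j]
    refine le_trans (measure_mono ?_) (measure_union_le _ _)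
    rintro ω ⟨h1, h2⟩
    rcases le_total |nuv (Bm M ω) i ⬝ᵥ M i| |nuv (Bm M ω)ᵀ j ⬝ᵥ Mᵀ j| with h3 | h3
    · exact Or.inl ⟨h1, h2, h3⟩
    · refine Or.inr ?_
      simp only [Set.mem_preimage, DBr, Set.mem_setOf_eq, Bm_swap, Matrix.transpose_transpose]
      exact ⟨h2, h1, h3⟩
  calc ∑ i, ∑ j, Pr μ (Fin n × Fin n) (DBs μ C M i j)
      ≤ ∑ i, ∑ j, (Pr μ (Fin n × Fin n) (DBr μ C M i j) +
          Pr μ (Fin n × Fin n) (DBr μ C Mᵀ j i)) :=
        Finset.sum_le_sum fun i _ => Finset.sum_le_sum fun j _ => hle i j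
    _ = ∑ i, ∑ j, Pr μ (Fin n × Fin n) (DBr μ C M i j) +
        ∑ j, ∑ i, Pr μ (Fin n × Fin n) (DBr μ C Mᵀ j i) := by
        simp only [Finset.sum_add_distrib]
        rw [Finset.sum_comm (f := fun i j => Pr μ (Fin n × Fin n) (DBr μ C Mᵀ j i))]
    _ ≤ _ := by
        rw [two_mul]
        exact add_le_add (hA M) (hA Mᵀ)

/-! ### one entry -/

theorem Bm_update (M : Matrix (Fin n) (Fin n) ℝ) (i j : Fin n) (ω : Fin n × Fin n → ℝ) (t : ℝ) :
    Bm M (Function.update ω (i, j) t) =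
      (Bm M ω).updateRow i (Function.update (Bm M ω i) j (t + M i j)) := by
  ext l k
  by_cases hl : l = i
  · subst hl
    by_cases hk : k = j
    · subst hk
      simp [Bm, Matrix.updateRow_self]
    · have : ((l, k) : Fin n × Fin n) ≠ (l, j) := by
        intro h; exact hk (Prod.mk.injEq _ _ _ _ ▸ h).2
      simp [Bm, Matrix.updateRow_self, hk, Function.update_of_ne this]
  · have : ((l, k) : Fin n × Fin n) ≠ (i, j) := by
      intro h; exact hl (Prod.mk.injEq _ _ _ _ ▸ h).1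
    simp [Bm, Matrix.updateRow_ne hl, Function.update_of_ne this]

theorem entry_resample {μ : Measure ℝ} (hμ : IsProbabilityMeasure μ) (hRES : S_RES)
    (q : Fin n × Fin n) (G : (Fin n × Fin n → ℝ) → ℝ≥0∞) (hG : Measurable G) :
    ∫⁻ ω, G ω ∂(Pr μ (Fin n × Fin n)) =
      ∫⁻ ω, ∫⁻ t, G (Function.update ω q t) ∂μ ∂(Pr μ (Fin n × Fin n)) := by
  rw [hRES μ hμ (Fin n × Fin n) (fun p => p = q) G hG]
  apply lintegral_congr
  intro ω
  have hm : Measurable fun t : ℝ => G (Function.update ω q t) :=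
    hG.comp (measurable_update ω)
  have h1 := (measurePreserving_eval (fun _ : Fin n × Fin n => μ) q).lintegral_comp hm
  rw [← h1]
  unfold Pr
  apply lintegral_congr
  intro y
  congr 1
  funext p
  by_cases hp : p = q
  · subst hp
    simp
  · rw [if_neg hp, Function.update_of_ne hp]

theorem DBs_update {μ : Measure ℝ} (C : ℝ) (M : Matrix (Fin n) (Fin n) ℝ) (i j : Fin n)
    (ω : Fin n × Fin n → ℝ) (t : ℝ) :
    Function.update ω (i, j) t ∈ DBs μ C M i j ↔ ω ∈ DBs μ C M i j := by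
  unfold DBs
  simp only [Set.mem_setOf_eq]
  have h1 : (Bm M (Function.update ω (i, j) t))ᵀ =
      ((Bm M ω)ᵀ).updateRow j (Function.update ((Bm M ω)ᵀ j) i (t + M i j)) := by
    rw [Bm_update]
    ext l k
    simp only [Matrix.transpose_apply, Matrix.updateRow_apply, Function.update_apply]
    by_cases hl : l = j <;> by_cases hk : k = i <;> simp [hl, hk]
  rw [h1, RBp_updateRow, Bm_update, RBp_updateRow]

theorem db_entry {μ : Measure ℝ} {K : ℝ} (hN : Nice μ K) (hRES : S_RES) (hENT : S_ENT) (C : ℝ)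
    (M : Matrix (Fin n) (Fin n) ℝ) {h : ℝ} (hh : 0 < h) (i j : Fin n) :
    ∫⁻ ω, (open Classical in if (RBp μ C M (Bm M ω) i j ∧ RBp μ C Mᵀ (Bm M ω)ᵀ j i) ∧
        h ^ 2 ≤ hsn (Bm M ω)⁻¹ then
        ENNReal.ofReal ((Bm M ω)⁻¹ j i ^ 2 / hsn (Bm M ω)⁻¹) else 0) ∂(Pr μ (Fin n × Fin n)) ≤
      ENNReal.ofReal (4 * K / h) * Pr μ (Fin n × Fin n) (DBs μ C M i j) := by
  classical
  have hμ := hN.prob
  have hB := ME_Bm M
  have hmD := measDBs hμ C M i j
  have hmh : MeasurableSet {ω : Fin n × Fin n → ℝ | h ^ 2 ≤ hsn (Bm M ω)⁻¹} :=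
    measurableSet_le measurable_const hB.inv.hsn
  have hmF : Measurable fun ω => (if (RBp μ C M (Bm M ω) i j ∧ RBp μ C Mᵀ (Bm M ω)ᵀ j i) ∧
        h ^ 2 ≤ hsn (Bm M ω)⁻¹ then
        ENNReal.ofReal ((Bm M ω)⁻¹ j i ^ 2 / hsn (Bm M ω)⁻¹) else 0) := by
    refine Measurable.ite (hmD.inter hmh) ?_ measurable_const
    exact (((hB.inv j i).pow_const 2).div hB.inv.hsn).ennreal_ofReal
  rw [entry_resample hμ hRES (i, j) _ hmF, ← lintegral_indicator_one hmD,
    ← lintegral_const_mul' _ _ ENNReal.ofReal_ne_top]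
  apply lintegral_mono
  intro ω
  by_cases hω : ω ∈ DBs μ C M i j
  · simp only [Set.indicator_of_mem hω, Pi.one_apply, mul_one]
    refine le_trans (lintegral_mono ?_) (hENT μ K hN (Fin n) (Bm M ω) i j (M i j) h hh)
    intro t
    simp only [Bm_update]
    split_ifs with h2 h3
    · exact le_rfl
    · exact absurd h2.2 h3
    · exact bot_le
    · exact le_rfl
  · have h0 : ∀ t : ℝ, ¬ ((RBp μ C M (Bm M (Function.update ω (i, j) t)) i j ∧
        RBp μ C Mᵀ (Bm M (Function.update ω (i, j) t))ᵀ j i) ∧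
        h ^ 2 ≤ hsn (Bm M (Function.update ω (i, j) t))⁻¹) := by
      intro t h1
      exact hω ((DBs_update C M i j ω t).1 h1.1)
    simp only [if_neg (h0 _), lintegral_zero]
    exact bot_le

end Pool.Agent.W856.SV
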