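import Pool.Agent.W856.SV.M4

set_option autoImplicit false
set_option linter.unusedSectionVars false
set_option linter.style.haveILetI false

open MeasureTheory Matrix
open scoped ENNReal

namespace Pool.Agent.W856.SV

variable {n : ℕ}

theorem col2_transpose (G : Matrix (Fin n) (Fin n) ℝ) (j : Fin n) : col2 Gᵀ j = row2 G j := rfl

theorem row2_transpose (G : Matrix (Fin n) (Fin n) ℝ) (j : Fin n) : row2 Gᵀ j = col2 G j := rfl

/-- The column part. -/
theorem col_part {μ : Measure ℝ} (hμ : IsProbabilityMeasure μ) {C₁ C : ℝ} (hs : SB1 μ C₁)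
    (hC : RowC μ C) (hSTR : S_STR) (hRES : S_RES) (hW : S_WSUM) (hn : 2 ≤ n)
    (M : Matrix (Fin n) (Fin n) ℝ)
    (hdet : ∀ M : Matrix (Fin n) (Fin n) ℝ, ∀ᵐ ω ∂(Pr μ (Fin n × Fin n)), (Bm M ω).det ≠ 0)
    {h : ℝ} (hh : 0 < h) :
    ∑ j, ∫⁻ ω, (open Classical in if (¬ ∃ i, RBp μ C Mᵀ (Bm M ω)ᵀ j i) ∧
        h ^ 2 ≤ hsn (Bm M ω)⁻¹ then
        ENNReal.ofReal (row2 (Bm M ω)⁻¹ j / hsn (Bm M ω)⁻¹) else 0) ∂(Pr μ (Fin n × Fin n)) ≤
      ENNReal.ofReal (C / h) * ENNReal.ofReal (Real.sqrt n) := by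
  classical
  refine le_trans (le_of_eq ?_) (row_part hμ hs hC hSTR hRES hW hn Mᵀ (hdet Mᵀ) hh)
  apply Finset.sum_congr rfl
  intro j _
  have hB := ME_Bm Mᵀ
  have hmeasRB : MeasurableSet {ω | ∃ i, RBp μ C Mᵀ (Bm Mᵀ ω) j i} := by
    have : {ω | ∃ i, RBp μ C Mᵀ (Bm Mᵀ ω) j i} = ⋃ i, {ω | RBp μ C Mᵀ (Bm Mᵀ ω) j i} := by
      ext ω; simp
    rw [this]
    exact MeasurableSet.iUnion fun i => hB.RBp hμ C Mᵀ j i
  have hmh : MeasurableSet {ω : Fin n × Fin n → ℝ | h ^ 2 ≤ hsn (Bm Mᵀ ω)⁻¹} :=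
    measurableSet_le measurable_const hB.inv.hsn
  have hmF : Measurable fun ω => (if (¬ ∃ i, RBp μ C Mᵀ (Bm Mᵀ ω) j i) ∧
      h ^ 2 ≤ hsn (Bm Mᵀ ω)⁻¹ then
        ENNReal.ofReal (col2 (Bm Mᵀ ω)⁻¹ j / hsn (Bm Mᵀ ω)⁻¹) else 0) := by
    refine Measurable.ite (hmeasRB.compl.inter hmh) ?_ measurable_const
    exact ((hB.inv.col2 j).div hB.inv.hsn).ennreal_ofReal
  rw [← lintegral_swap' hμ _ hmF]
  apply lintegral_congr
  intro ω
  simp only [Bm_swap, ← Matrix.transpose_nonsing_inv, hsn_transpose, col2_transpose]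

theorem hsn_nonneg {ι : Type} [Fintype ι] (G : Matrix ι ι ℝ) : 0 ≤ hsn G :=
  Finset.sum_nonneg fun _ _ => Finset.sum_nonneg fun _ _ => sq_nonneg _

theorem hsn_eq_sum_col2 (G : Matrix (Fin n) (Fin n) ℝ) : hsn G = ∑ i, col2 G i := by
  unfold hsn col2
  rw [Finset.sum_comm]

theorem col2_pos {G : Matrix (Fin n) (Fin n) ℝ} (hG : G.det ≠ 0) (i : Fin n) : 0 < col2 G i := by
  by_contra hcon
  have h0 : col2 G i = 0 := le_antisymm (not_lt.1 hcon) (Finset.sum_nonneg fun _ _ => sq_nonneg _)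
  apply hG
  apply Matrix.det_eq_zero_of_column_eq_zero i
  intro l
  have h1 := (Finset.sum_eq_zero_iff_of_nonneg (fun _ _ => sq_nonneg _)).1 h0 l
    (Finset.mem_univ l)
  exact pow_eq_zero_iff (two_ne_zero) |>.1 h1

theorem nuv_sq {B : Matrix (Fin n) (Fin n) ℝ} (hB : B.det ≠ 0) (i j : Fin n) :
    nuv B i j ^ 2 = B⁻¹ j i ^ 2 / col2 B⁻¹ i := by
  have h1 := nuv_transpose_sq (B := Bᵀ) (by rwa [Matrix.det_transpose]) i j
  rw [Matrix.transpose_transpose, ← Matrix.transpose_nonsing_inv, row2_transpose] at h1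
  rw [h1, Matrix.transpose_apply]

/-- The pointwise partition. -/
theorem pointwise (hP : S_PART) (μ : Measure ℝ) (C : ℝ) (M B : Matrix (Fin n) (Fin n) ℝ)
    (hn : 0 < n) (hB : B.det ≠ 0) :
    (1 : ℝ≥0∞) ≤ 2 * ((∑ i, (open Classical in if ¬ ∃ j, RBp μ C M B i j then
        ENNReal.ofReal (col2 B⁻¹ i / hsn B⁻¹) else 0)) +
      (∑ j, (open Classical in if ¬ ∃ i, RBp μ C Mᵀ Bᵀ j i then
        ENNReal.ofReal (row2 B⁻¹ j / hsn B⁻¹) else 0)) +
      ∑ i, ∑ j, (open Classical in if RBp μ C M B i j ∧ RBp μ C Mᵀ Bᵀ j i then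
        ENNReal.ofReal (B⁻¹ j i ^ 2 / hsn B⁻¹) else 0)) := by
  classical
  have hBT : Bᵀ.det ≠ 0 := by rwa [Matrix.det_transpose]
  set G := B⁻¹ with hG
  have hGdet : G.det ≠ 0 := by
    rw [hG, Matrix.det_nonsing_inv, Ring.inverse_eq_inv']
    exact inv_ne_zero hB
  have hGTdet : Gᵀ.det ≠ 0 := by rwa [Matrix.det_transpose]
  have hH : 0 < hsn G := by
    rw [hsn_eq_sum_col2]
    haveI : Nonempty (Fin n) := ⟨⟨0, hn⟩⟩
    exact Finset.sum_pos (fun i _ => col2_pos hGdet i) Finset.univ_nonempty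
  have hcol : ∀ i, ∑ j, G j i ^ 2 / hsn G = col2 G i / hsn G := by
    intro i
    rw [← Finset.sum_div]
    rfl
  have hrow : ∀ j, ∑ i, G j i ^ 2 / hsn G = row2 G j / hsn G := by
    intro j
    rw [← Finset.sum_div]
    rfl
  have h1 := hP (Fin n) (fun i j => G j i ^ 2 / hsn G) (fun i j => RBp μ C M B i j)
    (fun j i => RBp μ C Mᵀ Bᵀ j i) (fun i j => by positivity) (by
      simp only [hcol]
      rw [← Finset.sum_div, ← hsn_eq_sum_col2, div_self hH.ne'])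
    (by
      intro i j hij
      have h2 : 3 / 4 < nuv B i j ^ 2 := hij.1.1
      rw [nuv_sq hB, ← hG, lt_div_iff₀ (col2_pos hGdet i)] at h2
      rw [hcol, ← mul_div_assoc]
      exact (div_le_div_iff_of_pos_right hH).2 h2.le)
    (by
      intro j i hij
      have h2 : 3 / 4 < nuv Bᵀ j i ^ 2 := hij.1.1
      rw [nuv_transpose_sq hB, ← hG, lt_div_iff₀ (by
        have := col2_pos hGTdet j
        rwa [col2_transpose] at this)] at h2
      rw [hrow, ← mul_div_assoc]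
      exact (div_le_div_iff_of_pos_right hH).2 h2.le)
  simp only [hcol, hrow] at h1
  have h2 := ENNReal.ofReal_le_ofReal h1
  rw [ENNReal.ofReal_one] at h2
  refine le_trans h2 ?_
  have n1 : ∀ i, 0 ≤ (if ∃ j, RBp μ C M B i j then 0 else col2 G i / hsn G) := by
    intro i
    split_ifs
    · exact le_rfl
    · exact div_nonneg (col2_pos hGdet i).le hH.le
  have n2 : ∀ j, 0 ≤ (if ∃ i, RBp μ C Mᵀ Bᵀ j i then 0 else row2 G j / hsn G) := by
    intro j
    split_ifs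
    · exact le_rfl
    · exact div_nonneg (by
        have := (col2_pos hGTdet j).le
        rwa [col2_transpose] at this) hH.le
  have n3 : ∀ i j, 0 ≤ (if RBp μ C M B i j ∧ RBp μ C Mᵀ Bᵀ j i then G j i ^ 2 / hsn G else 0) := by
    intro i j
    split_ifs
    · positivity
    · exact le_rfl
  rw [ENNReal.ofReal_mul (by norm_num)]
  rw [ENNReal.ofReal_add (add_nonneg (Finset.sum_nonneg fun i _ => n1 i)
      (Finset.sum_nonneg fun i _ => n2 i))
      (Finset.sum_nonneg fun i _ => Finset.sum_nonneg fun j _ => n3 i j),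
    ENNReal.ofReal_add (Finset.sum_nonneg fun i _ => n1 i) (Finset.sum_nonneg fun i _ => n2 i),
    ENNReal.ofReal_sum_of_nonneg (fun i _ => n1 i),
    ENNReal.ofReal_sum_of_nonneg (fun i _ => n2 i),
    ENNReal.ofReal_sum_of_nonneg (fun i _ => Finset.sum_nonneg fun j _ => n3 i j)]
  have e2 : ENNReal.ofReal 2 = 2 := by simp
  rw [e2]
  gcongr with i _ j _ i _
  · split_ifs with h3
    · rw [ENNReal.ofReal_zero]
    · exact le_rfl
  · split_ifs with h3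
    · rw [ENNReal.ofReal_zero]
    · exact le_rfl
  · rw [ENNReal.ofReal_sum_of_nonneg (fun j _ => n3 i j)]
    gcongr with j _
    split_ifs with h3
    · exact le_rfl
    · rw [ENNReal.ofReal_zero]

/-- The main bound for `n ≥ 2`. -/
theorem main_ge_two {μ : Measure ℝ} {K : ℝ} (hN : Nice μ K) {C₁ C Cn : ℝ} (hs : SB1 μ C₁)
    (hC0 : 0 < C) (hC : RowC μ C) (hSBN : SBNC μ Cn) (hCn : 0 < Cn) (hSTR : S_STR)
    (hLOC : S_LOC) (hSYM : S_SYM) (hRES : S_RES) (hW : S_WSUM) (hP : S_PART) (hENT : S_ENT)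
    (hn : 2 ≤ n) (M : Matrix (Fin n) (Fin n) ℝ)
    (hdet : ∀ M : Matrix (Fin n) (Fin n) ℝ, ∀ᵐ ω ∂(Pr μ (Fin n × Fin n)), (Bm M ω).det ≠ 0)
    {h : ℝ} (hh : 0 < h) :
    Pr μ (Fin n × Fin n) {ω | h ^ 2 ≤ hsn (Bm M ω)⁻¹} ≤
      ENNReal.ofReal ((4 * C + 32 * K * Cn * C) * (Real.sqrt n / h)) := by
  classical
  have hμ := hN.prob
  have hB := ME_Bm M
  have hBT := (ME_Bm M).transpose
  have hmh : MeasurableSet {ω : Fin n × Fin n → ℝ | h ^ 2 ≤ hsn (Bm M ω)⁻¹} :=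
    measurableSet_le measurable_const hB.inv.hsn
  have hR1 : ∀ i, MeasurableSet {ω | ∃ j, RBp μ C M (Bm M ω) i j} := by
    intro i
    have : {ω | ∃ j, RBp μ C M (Bm M ω) i j} = ⋃ j, {ω | RBp μ C M (Bm M ω) i j} := by
      ext ω; simp
    rw [this]
    exact MeasurableSet.iUnion fun j => hB.RBp hμ C M i j
  have hR2 : ∀ j, MeasurableSet {ω | ∃ i, RBp μ C Mᵀ (Bm M ω)ᵀ j i} := by
    intro j
    have : {ω | ∃ i, RBp μ C Mᵀ (Bm M ω)ᵀ j i} = ⋃ i, {ω | RBp μ C Mᵀ (Bm M ω)ᵀ j i} := by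
      ext ω; simp
    rw [this]
    exact MeasurableSet.iUnion fun i => hBT.RBp hμ C Mᵀ j i
  -- the three families of functions
  set F1 : Fin n → (Fin n × Fin n → ℝ) → ℝ≥0∞ := fun i ω =>
    if (¬ ∃ j, RBp μ C M (Bm M ω) i j) ∧ h ^ 2 ≤ hsn (Bm M ω)⁻¹ then
        ENNReal.ofReal (col2 (Bm M ω)⁻¹ i / hsn (Bm M ω)⁻¹) else 0 with hF1
  set F2 : Fin n → (Fin n × Fin n → ℝ) → ℝ≥0∞ := fun j ω =>
    if (¬ ∃ i, RBp μ C Mᵀ (Bm M ω)ᵀ j i) ∧ h ^ 2 ≤ hsn (Bm M ω)⁻¹ then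
        ENNReal.ofReal (row2 (Bm M ω)⁻¹ j / hsn (Bm M ω)⁻¹) else 0 with hF2
  set F3 : Fin n → Fin n → (Fin n × Fin n → ℝ) → ℝ≥0∞ := fun i j ω =>
    if (RBp μ C M (Bm M ω) i j ∧ RBp μ C Mᵀ (Bm M ω)ᵀ j i) ∧ h ^ 2 ≤ hsn (Bm M ω)⁻¹ then
        ENNReal.ofReal ((Bm M ω)⁻¹ j i ^ 2 / hsn (Bm M ω)⁻¹) else 0 with hF3
  have m1 : ∀ i, Measurable (F1 i) := by
    intro i
    refine Measurable.ite ((hR1 i).compl.inter hmh) ?_ measurable_const
    exact ((hB.inv.col2 i).div hB.inv.hsn).ennreal_ofReal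
  have mrow2 : ∀ j, Measurable fun ω => row2 (Bm M ω)⁻¹ j := by
    intro j
    have : (fun ω => row2 (Bm M ω)⁻¹ j) = fun ω => col2 ((Bm M ω)⁻¹)ᵀ j := rfl
    rw [this]
    exact hB.inv.transpose.col2 j
  have m2 : ∀ j, Measurable (F2 j) := by
    intro j
    refine Measurable.ite ((hR2 j).compl.inter hmh) ?_ measurable_const
    exact ((mrow2 j).div hB.inv.hsn).ennreal_ofReal
  have m3 : ∀ i j, Measurable (F3 i j) := by
    intro i j
    refine Measurable.ite (((hB.RBp hμ C M i j).inter (hBT.RBp hμ C Mᵀ j i)).inter hmh) ?_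
      measurable_const
    exact (((hB.inv j i).pow_const 2).div hB.inv.hsn).ennreal_ofReal
  have hpt : ∀ᵐ ω ∂(Pr μ (Fin n × Fin n)),
      ({ω | h ^ 2 ≤ hsn (Bm M ω)⁻¹} : Set (Fin n × Fin n → ℝ)).indicator
        (1 : (Fin n × Fin n → ℝ) → ℝ≥0∞) ω ≤
        2 * ((∑ i, F1 i ω) + (∑ j, F2 j ω) + ∑ i, ∑ j, F3 i j ω) := by
    filter_upwards [hdet M] with ω hω
    by_cases hcase : h ^ 2 ≤ hsn (Bm M ω)⁻¹
    · rw [Set.indicator_of_mem (by exact hcase), Pi.one_apply]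
      have h1 := pointwise hP μ C M (Bm M ω) (by omega) hω
      simpa only [hF1, hF2, hF3, hcase, and_true] using h1
    · rw [Set.indicator_of_notMem (by exact hcase)]
      exact bot_le
  rw [← lintegral_indicator_one hmh]
  refine le_trans (lintegral_mono_ae hpt) ?_
  have e2 : (2 : ℝ≥0∞) ≠ ⊤ := by norm_num
  rw [lintegral_const_mul' _ _ e2]
  rw [lintegral_add_left (by
    apply Measurable.add
    · exact Finset.measurable_sum _ fun i _ => m1 i
    · exact Finset.measurable_sum _ fun i _ => m2 i),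
    lintegral_add_left (Finset.measurable_sum _ fun i _ => m1 i),
    lintegral_finsetSum _ (fun i _ => m1 i), lintegral_finsetSum _ (fun i _ => m2 i),
    lintegral_finsetSum _ (fun i _ => Finset.measurable_sum _ fun j _ => m3 i j)]
  have b1 := row_part hμ hs hC hSTR hRES hW hn M (hdet M) hh
  have b2 := col_part hμ hs hC hSTR hRES hW hn M hdet hh
  have b3 : ∑ i, ∫⁻ ω, ∑ j, F3 i j ω ∂(Pr μ (Fin n × Fin n)) ≤
      ENNReal.ofReal (4 * K / h) *
        (2 * (ENNReal.ofReal (2 * Cn) * (ENNReal.ofReal C * ENNReal.ofReal (Real.sqrt n)))) := by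
    calc ∑ i, ∫⁻ ω, ∑ j, F3 i j ω ∂(Pr μ (Fin n × Fin n))
        = ∑ i, ∑ j, ∫⁻ ω, F3 i j ω ∂(Pr μ (Fin n × Fin n)) := by
          apply Finset.sum_congr rfl
          intro i _
          rw [lintegral_finsetSum _ (fun j _ => m3 i j)]
      _ ≤ ∑ i, ∑ j, ENNReal.ofReal (4 * K / h) * Pr μ (Fin n × Fin n) (DBs μ C M i j) := by
          gcongr with i _ j _
          exact db_entry hN hRES hENT C M hh i j
      _ = ENNReal.ofReal (4 * K / h) * ∑ i, ∑ j, Pr μ (Fin n × Fin n) (DBs μ C M i j) := by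
          simp only [Finset.mul_sum]
      _ ≤ _ := by
          gcongr
          exact db_count hμ hs hSBN hCn hSTR hLOC hSYM hRES hW M hdet
  have hK := hN.Kpos
  have hsn0 : 0 ≤ Real.sqrt n := Real.sqrt_nonneg _
  refine le_trans (mul_le_mul_right (add_le_add (add_le_add b1 b2) b3) 2) ?_
  have e22 : (2 : ℝ≥0∞) = ENNReal.ofReal 2 := by simp
  rw [e22]
  rw [← ENNReal.ofReal_mul (by positivity), ← ENNReal.ofReal_mul (by positivity),
    ← ENNReal.ofReal_mul (by positivity), ← ENNReal.ofReal_mul (by positivity),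
    ← ENNReal.ofReal_mul (by positivity), ← ENNReal.ofReal_add (by positivity) (by positivity),
    ← ENNReal.ofReal_add (by positivity) (by positivity), ← ENNReal.ofReal_mul (by positivity)]
  apply ENNReal.ofReal_le_ofReal
  apply le_of_eq
  field_simp
  ring

end Pool.Agent.W856.SV
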