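import Pool.Agent.W856.SV.M5

set_option autoImplicit false
set_option linter.unusedSectionVars false
set_option linter.style.haveILetI false

open MeasureTheory Matrix
open scoped ENNReal

namespace Pool.Agent.W856.SV

/-- The case `n = 1`. -/
theorem main_one {μ : Measure ℝ} {K : ℝ} (hN : Nice μ K) (hRES : S_RES) (hENT : S_ENT)
    (M : Matrix (Fin 1) (Fin 1) ℝ) {h : ℝ} (hh : 0 < h) :
    Pr μ (Fin 1 × Fin 1) {ω | h ^ 2 ≤ hsn (Bm M ω)⁻¹} ≤ ENNReal.ofReal (4 * K / h) := by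
  have hμ := hN.prob
  have hB := ME_Bm M
  haveI := prob_Pr hμ (Fin 1 × Fin 1)
  have hmh : MeasurableSet {ω : Fin 1 × Fin 1 → ℝ | h ^ 2 ≤ hsn (Bm M ω)⁻¹} :=
    measurableSet_le measurable_const hB.inv.hsn
  rw [← lintegral_indicator_one hmh,
    entry_resample hμ hRES (0, 0) _ (measurable_one.indicator hmh)]
  have h1 : ∀ ω : Fin 1 × Fin 1 → ℝ, ∫⁻ t, ({ω | h ^ 2 ≤ hsn (Bm M ω)⁻¹} :
      Set (Fin 1 × Fin 1 → ℝ)).indicator (1 : (Fin 1 × Fin 1 → ℝ) → ℝ≥0∞)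
        (Function.update ω (0, 0) t) ∂μ ≤ ENNReal.ofReal (4 * K / h) := by
    intro ω
    refine le_trans (lintegral_mono ?_) (hENT μ K hN (Fin 1) (Bm M ω) 0 0 (M 0 0) h hh)
    intro t
    have h2 : ∀ ω' : Fin 1 × Fin 1 → ℝ, ({ω | h ^ 2 ≤ hsn (Bm M ω)⁻¹} :
        Set (Fin 1 × Fin 1 → ℝ)).indicator (1 : (Fin 1 × Fin 1 → ℝ) → ℝ≥0∞) ω' ≤
        if h ^ 2 ≤ hsn (Bm M ω')⁻¹ then
          ENNReal.ofReal ((Bm M ω')⁻¹ 0 0 ^ 2 / hsn (Bm M ω')⁻¹) else 0 := by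
      intro ω'
      by_cases hc : h ^ 2 ≤ hsn (Bm M ω')⁻¹
      · rw [Set.indicator_of_mem (by exact hc), if_pos hc, Pi.one_apply]
        have h3 : hsn (Bm M ω')⁻¹ = (Bm M ω')⁻¹ 0 0 ^ 2 := by
          simp [hsn]
        have h4 : 0 < hsn (Bm M ω')⁻¹ := lt_of_lt_of_le (by positivity) hc
        rw [← h3, div_self h4.ne', ENNReal.ofReal_one]
      · rw [Set.indicator_of_notMem (by exact hc)]
        exact bot_le
    have h5 := h2 (Function.update ω (0, 0) t)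
    rw [Bm_update] at h5
    exact h5
  refine le_trans (lintegral_mono h1) ?_
  rw [lintegral_const, measure_univ, mul_one]

/-- The deterministic part: a small singular value gives a large inverse. -/
theorem det_part {n : ℕ} {B : Matrix (Fin n) (Fin n) ℝ} (hB : B.det ≠ 0) {x : Fin n → ℝ} {r : ℝ}
    (hx : ∑ i, x i ^ 2 = 1) (hr : ∑ i, (B *ᵥ x) i ^ 2 ≤ r) : 1 ≤ hsn B⁻¹ * r := by
  have h1 : x = B⁻¹ *ᵥ (B *ᵥ x) := by
    rw [Matrix.mulVec_mulVec, Matrix.nonsing_inv_mul _ (isUnit_iff_ne_zero.2 hB),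
      Matrix.one_mulVec]
  calc (1 : ℝ) = ∑ i, x i ^ 2 := hx.symm
    _ = ∑ i, (∑ j, B⁻¹ i j * (B *ᵥ x) j) ^ 2 := by
        conv_lhs => rw [h1]
        rfl
    _ ≤ ∑ i, (∑ j, B⁻¹ i j ^ 2) * ∑ j, (B *ᵥ x) j ^ 2 := by
        gcongr with i _
        exact Finset.sum_mul_sq_le_sq_mul_sq _ _ _
    _ = hsn B⁻¹ * ∑ j, (B *ᵥ x) j ^ 2 := by
        rw [← Finset.sum_mul]
        rfl
    _ ≤ hsn B⁻¹ * r := by
        gcongr
        exact hsn_nonneg _

/-- The theorem, from its parts. -/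
theorem assembled (hSB : S_SB) (hSBNall : S_SBN) (hROW : S_ROW) (hSTR : S_STR) (hLOC : S_LOC)
    (hSYM : S_SYM) (hRES : S_RES) (hW : S_WSUM) (hP : S_PART) (hENT : S_ENT) (hDET : S_DET)
    (μ : Measure ℝ) (K : ℝ) (hN : Nice μ K) :
    ∃ C : ℝ, 0 < C ∧
      ∀ (n : ℕ) (M : Matrix (Fin n) (Fin n) ℝ) (t : ℝ), 0 < t →
        Measure.pi (fun _ : Fin n × Fin n => μ)
          {ω | ∃ x : Fin n → ℝ, ∑ i, x i ^ 2 = 1 ∧
            ∑ i, ((Matrix.of (fun i j => ω (i, j)) + M) *ᵥ x) i ^ 2 ≤ t ^ 2 / (n : ℝ)}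
          ≤ ENNReal.ofReal (C * t) := by
  obtain ⟨C₁, -, hs, -, -⟩ := hSB μ K hN
  obtain ⟨Cn, hCn, hSBN⟩ := hSBNall μ K hN
  obtain ⟨C, hC0, hC⟩ := hROW μ K hN
  have hK := hN.Kpos
  have hdet : ∀ (n : ℕ) (M : Matrix (Fin n) (Fin n) ℝ),
      ∀ᵐ ω ∂(Pr μ (Fin n × Fin n)), (Bm M ω).det ≠ 0 := fun n M => hDET μ K hN n M
  have key : ∀ (n : ℕ) (M : Matrix (Fin n) (Fin n) ℝ) (h : ℝ), 0 < n → 0 < h →
      Pr μ (Fin n × Fin n) {ω | h ^ 2 ≤ hsn (Bm M ω)⁻¹} ≤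
        ENNReal.ofReal ((4 * C + 32 * K * Cn * C + 4 * K) * (Real.sqrt n / h)) := by
    intro n M h hn hh
    rcases Nat.lt_or_ge n 2 with hlt | hge
    · have h1 : n = 1 := by omega
      subst h1
      refine le_trans (main_one hN hRES hENT M hh) (ENNReal.ofReal_le_ofReal ?_)
      rw [Nat.cast_one, Real.sqrt_one, mul_one_div]
      gcongr
      have : 0 ≤ 4 * C + 32 * K * Cn * C := by positivity
      linarith
    · refine le_trans (main_ge_two hN hs hC0 hC hSBN hCn hSTR hLOC hSYM hRES hW hP hENT hge M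
        (hdet n) hh) (ENNReal.ofReal_le_ofReal ?_)
      apply mul_le_mul_of_nonneg_right _ (by positivity)
      linarith
  refine ⟨4 * C + 32 * K * Cn * C + 4 * K, by positivity, ?_⟩
  intro n M t ht
  rcases Nat.eq_zero_or_pos n with h0 | hn
  · subst h0
    refine le_trans (le_of_eq ?_) bot_le
    rw [show {ω : Fin 0 × Fin 0 → ℝ | ∃ x : Fin 0 → ℝ, ∑ i, x i ^ 2 = 1 ∧
        ∑ i, ((Matrix.of (fun i j => ω (i, j)) + M) *ᵥ x) i ^ 2 ≤ t ^ 2 / ((0 : ℕ) : ℝ)} = ∅ by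
      ext ω
      simp]
    exact measure_empty
  · have hn' : (0 : ℝ) < n := by exact_mod_cast hn
    have hsqn : 0 < Real.sqrt n := Real.sqrt_pos.2 hn'
    have hh : 0 < Real.sqrt n / t := by positivity
    have h1 := key n M (Real.sqrt n / t) hn hh
    have h2 : (4 * C + 32 * K * Cn * C + 4 * K) * (Real.sqrt n / (Real.sqrt n / t)) =
        (4 * C + 32 * K * Cn * C + 4 * K) * t := by
      congr 1
      field_simp
    rw [h2] at h1
    refine le_trans ?_ h1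
    change Pr μ (Fin n × Fin n) _ ≤ _
    apply measure_mono_ae
    filter_upwards [hdet n M] with ω hω hmem
    obtain ⟨x, hx, hr⟩ := hmem
    have h3 := det_part (B := Bm M ω) hω hx hr
    change (Real.sqrt n / t) ^ 2 ≤ hsn (Bm M ω)⁻¹
    rw [div_pow, Real.sq_sqrt hn'.le, div_le_iff₀ (by positivity)]
    rw [← mul_div_assoc, le_div_iff₀ hn', one_mul] at h3
    exact h3

/-- The frozen hypotheses give `Nice`. -/
theorem nice_of {μ : Measure ℝ} (hμ : IsProbabilityMeasure μ) {f : ℝ → ℝ≥0∞}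
    {K : NNReal} (hK : ∀ x, f x ≤ (K : ℝ≥0∞)) (hd : μ = volume.withDensity f)
    (hsq : Integrable (fun x : ℝ => x ^ 2) μ) (hm : ∫ x, x ∂μ = 0) (hv : ∫ x, x ^ 2 ∂μ = 1) :
    Nice μ (K + 1) where
  prob := hμ
  Kpos := by positivity
  dens := by
    rw [hd]
    refine le_trans (withDensity_mono (μ := volume) (g := fun _ => ENNReal.ofReal (K + 1)) ?_) ?_
    · filter_upwards with x
      refine le_trans (hK x) ?_
      rw [← ENNReal.ofReal_coe_nnreal]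
      exact ENNReal.ofReal_le_ofReal (by linarith)
    · rw [withDensity_const]
  sq := hsq
  mean := hm
  var := hv

end Pool.Agent.W856.SV
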